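import Pool.Agent.H986.MT.Sep

/-!
Two crossing paths in the plane have a common point.
-/

set_option autoImplicit false

namespace Pool.Agent.H986.DS

open Pool.Agent.Helper133.BU Pool.Agent.H986.MT

/-- A path from the left to the right and a path from the bottom to the top. -/
theorem cross (p q : ℝ → ℂ) (hp : Continuous p) (hq : Continuous q)
    (h1 : ∀ t ∈ Set.Icc (0 : ℝ) 1, (p 0).re < (q t).re)
    (h2 : ∀ t ∈ Set.Icc (0 : ℝ) 1, (q t).re < (p 1).re)
    (h3 : ∀ s ∈ Set.Icc (0 : ℝ) 1, (q 0).im < (p s).im)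
    (h4 : ∀ s ∈ Set.Icc (0 : ℝ) 1, (p s).im < (q 1).im) :
    ∃ s ∈ Set.Icc (0 : ℝ) 1, ∃ t ∈ Set.Icc (0 : ℝ) 1, p s = q t := by
  classical
  let D : ℝ → ℝ → ℂ := fun a b => p (cl (1 / 2 + 2 * a)) - q (cl (1 / 2 + 2 * b))
  have hD : ∀ a b, D a b = p (cl (1 / 2 + 2 * a)) - q (cl (1 / 2 + 2 * b)) := fun a b => rfl
  let g : (Fin 3 → ℝ) → ℂ := fun x => (cl (2 * x 2) : ℂ) * D (x 0) (x 1) -
    (cl (-(2 * x 2)) : ℂ) * D (-x 0) (-x 1) +
    (1 - cl (2 * x 2) - cl (-(2 * x 2)) : ℂ) * ((x 0 : ℂ) - (x 1 : ℂ) * Complex.I)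
  have hg : Continuous g := by
    simp only [g, D]
    fun_prop
  have hgo : ∀ x, g (-x) = -g x := by
    intro x
    simp only [g, Pi.neg_apply]
    have e : 2 * -x 2 = -(2 * x 2) := by ring
    rw [e, neg_neg, neg_neg, neg_neg]
    push_cast
    ring
  let f : (Fin 3 → ℝ) → (Fin 2 → ℝ) := fun p => ![(g p).re, (g p).im]
  have hf : Continuous f := by
    refine continuous_pi fun i => ?_
    fin_cases i
    · exact Complex.continuous_re.comp hg
    · exact Complex.continuous_im.comp hg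
  have hodd : ∀ p, f (-p) = -f p := by
    intro p
    funext i
    fin_cases i
    · change (g (-p)).re = -(g p).re
      rw [hgo, Complex.neg_re]
    · change (g (-p)).im = -(g p).im
      rw [hgo, Complex.neg_im]
  obtain ⟨x, hx, hfx⟩ := borsuk_ulam 2 f hf hodd
  have hgx : g x = 0 := by
    apply Complex.ext
    · exact congrFun hfx 0
    · exact congrFun hfx 1
  obtain ⟨y, hy, hgy, hy2⟩ : ∃ y : Fin 3 → ℝ, |y 0| + |y 1| + |y 2| = 1 ∧ g y = 0 ∧ 0 ≤ y 2 := by
    have hs : |x 0| + |x 1| + |x 2| = 1 := by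
      have : ∑ i, |x i| = 1 := hx
      rw [Fin.sum_univ_three] at this
      exact this
    rcases le_total 0 (x 2) with h | h
    · exact ⟨x, hs, hgx, h⟩
    · refine ⟨-x, by simpa using hs, by rw [hgo, hgx, neg_zero], by simpa using h⟩
  rw [abs_of_nonneg hy2] at hy
  have e : (cl (2 * y 2) : ℂ) * D (y 0) (y 1) +
      (1 - cl (2 * y 2) : ℂ) * ((y 0 : ℂ) - (y 1 : ℂ) * Complex.I) = 0 := by
    have h5 : g y = 0 := hgy
    simp only [g] at h5
    rw [cl_zero (x := -(2 * y 2)) (by linarith)] at h5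
    rw [← h5]
    push_cast
    ring
  obtain ⟨c, hc⟩ : ∃ c, c = cl (2 * y 2) := ⟨_, rfl⟩
  have hcm := cl_mem (2 * y 2)
  rw [← hc] at e hcm
  have hre : c * (D (y 0) (y 1)).re + (1 - c) * y 0 = 0 := by
    have := congrArg Complex.re e
    simpa using this
  have him : c * (D (y 0) (y 1)).im - (1 - c) * y 1 = 0 := by
    have := congrArg Complex.im e
    simp at this
    linarith
  rcases eq_or_lt_of_le hcm.2 with h5 | h5
  · refine ⟨cl (1 / 2 + 2 * y 0), cl_mem _, cl (1 / 2 + 2 * y 1), cl_mem _, ?_⟩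
    have e2 : D (y 0) (y 1) = 0 := by
      rw [h5] at e
      simpa using e
    rw [hD] at e2
    exact sub_eq_zero.1 e2
  · exfalso
    have h6 : y 2 < 1 / 2 := by
      by_contra hcon
      push Not at hcon
      rw [hc, cl_one (by linarith)] at h5
      exact lt_irrefl _ h5
    have h7 : 1 / 4 ≤ |y 0| ∨ 1 / 4 ≤ |y 1| := by
      by_contra hcon
      push Not at hcon
      linarith [hcon.1, hcon.2]
    have m0 := cl_mem (1 / 2 + 2 * y 0)
    have m1 := cl_mem (1 / 2 + 2 * y 1)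
    rcases h7 with h7 | h7
    · rcases le_abs.1 h7 with h8 | h8
      · have h9 : 0 < (D (y 0) (y 1)).re := by
          rw [hD, cl_one (x := 1 / 2 + 2 * y 0) (by linarith), Complex.sub_re]
          linarith [h2 _ m1]
        have : 0 < (1 - c) * y 0 := mul_pos (by linarith) (by linarith)
        have := mul_nonneg hcm.1 h9.le
        linarith
      · have h9 : (D (y 0) (y 1)).re < 0 := by
          rw [hD, cl_zero (x := 1 / 2 + 2 * y 0) (by linarith), Complex.sub_re]
          linarith [h1 _ m1]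
        have : 0 < (1 - c) * -y 0 := mul_pos (by linarith) (by linarith)
        have := mul_nonneg hcm.1 (neg_pos.2 h9).le
        nlinarith
    · rcases le_abs.1 h7 with h8 | h8
      · have h9 : (D (y 0) (y 1)).im < 0 := by
          rw [hD, cl_one (x := 1 / 2 + 2 * y 1) (by linarith), Complex.sub_im]
          linarith [h4 _ m0]
        have : 0 < (1 - c) * y 1 := mul_pos (by linarith) (by linarith)
        have := mul_nonneg hcm.1 (neg_pos.2 h9).le
        nlinarith
      · have h9 : 0 < (D (y 0) (y 1)).im := by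
          rw [hD, cl_zero (x := 1 / 2 + 2 * y 1) (by linarith), Complex.sub_im]
          linarith [h3 _ m0]
        have : 0 < (1 - c) * -y 1 := mul_pos (by linarith) (by linarith)
        have := mul_nonneg hcm.1 h9.le
        nlinarith

theorem crossJ {F B : Set ℂ} {z z' w w' : ℂ} (hF : JoinedIn F z z') (hB : JoinedIn B w w')
    (h1 : ∀ x ∈ B, z.re < x.re) (h2 : ∀ x ∈ B, x.re < z'.re)
    (h3 : ∀ x ∈ F, w.im < x.im) (h4 : ∀ x ∈ F, x.im < w'.im) : ∃ x ∈ F, x ∈ B := by
  obtain ⟨γ, hγ⟩ := hF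
  obtain ⟨δ, hδ⟩ := hB
  have e1 : ∀ u ∈ Set.Icc (0 : ℝ) 1, γ.extend u ∈ F := by
    intro u hu
    rw [Path.extend_apply γ hu]
    exact hγ _
  have e2 : ∀ u ∈ Set.Icc (0 : ℝ) 1, δ.extend u ∈ B := by
    intro u hu
    rw [Path.extend_apply δ hu]
    exact hδ _
  obtain ⟨s, hs, t, ht, h⟩ := cross γ.extend δ.extend γ.continuous_extend δ.continuous_extend
    (fun t ht => by rw [Path.extend_zero]; exact h1 _ (e2 t ht))
    (fun t ht => by rw [Path.extend_one]; exact h2 _ (e2 t ht))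
    (fun t ht => by rw [Path.extend_zero]; exact h3 _ (e1 t ht))
    (fun t ht => by rw [Path.extend_one]; exact h4 _ (e1 t ht))
  exact ⟨_, e1 s hs, h ▸ e2 t ht⟩

end Pool.Agent.H986.DS
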