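import Pool.Agent.H986.DS.Prob

/-!
The same for all laws which are invariant under rotations.
-/

set_option autoImplicit false

namespace Pool.Agent.H986.DS

open Pool.Agent.H986.MT

/-- a covering argument -/
theorem cover {α κ : Type} [DecidableEq α] (S MM : Finset α) (K : Finset κ) (f : α → ℝ)
    (hf : ∀ p ∈ S, 0 ≤ f p) (hMM : MM ⊆ S) (g : κ → α → α)
    (h : ∀ p ∈ S, ∃ k ∈ K, g k p ∈ MM) (hinj : ∀ k ∈ K, Function.Injective (g k))
    (hfg : ∀ k ∈ K, ∀ p ∈ S, f (g k p) = f p) :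
    ∑ p ∈ S, f p ≤ K.card * ∑ p ∈ MM, f p := by
  classical
  calc ∑ p ∈ S, f p ≤ ∑ p ∈ S, ∑ k ∈ K, if g k p ∈ MM then f p else 0 := by
        refine Finset.sum_le_sum fun p hp => ?_
        obtain ⟨k, hk, hkp⟩ := h p hp
        have h1 := Finset.single_le_sum (s := K) (f := fun k => if g k p ∈ MM then f p else 0)
          (fun k _ => by
            split_ifs
            · exact hf p hp
            · exact le_rfl) hk
        simp only [if_pos hkp] at h1
        exact h1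
    _ = ∑ k ∈ K, ∑ p ∈ S, if g k p ∈ MM then f p else 0 := Finset.sum_comm
    _ ≤ ∑ k ∈ K, ∑ p ∈ MM, f p := by
        refine Finset.sum_le_sum fun k hk => ?_
        rw [← Finset.sum_filter]
        calc ∑ p ∈ S.filter (fun p => g k p ∈ MM), f p
            = ∑ p ∈ S.filter (fun p => g k p ∈ MM), f (g k p) :=
              Finset.sum_congr rfl fun p hp => (hfg k hk p (Finset.mem_filter.1 hp).1).symm
          _ = ∑ q ∈ (S.filter (fun p => g k p ∈ MM)).image (g k), f q := by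
              rw [Finset.sum_image]
              intro a _ b _ e
              exact hinj k hk e
          _ ≤ ∑ p ∈ MM, f p := by
              refine Finset.sum_le_sum_of_subset_of_nonneg ?_ (fun q hq _ => hf q (hMM hq))
              intro q hq
              obtain ⟨p, hp, rfl⟩ := Finset.mem_image.1 hq
              exact (Finset.mem_filter.1 hp).2
    _ = K.card * ∑ p ∈ MM, f p := by rw [Finset.sum_const, nsmul_eq_mul]

/-- the total weight of the self-avoiding walks -/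
noncomputable def mass (n : ℕ) (W : (Fin (n + 1) → ℤ × ℤ) → ℝ)
    (E : (Fin (n + 1) → ℤ × ℤ) → Prop) : ℝ :=
  ∑ᶠ ω ∈ {ω | IsSAW n ω ∧ E ω}, W ω

/-- the total weight of the pairs -/
noncomputable def mass2 (n m : ℕ) (W : (Fin (n + 1) → ℤ × ℤ) → ℝ)
    (W' : (Fin (m + 1) → ℤ × ℤ) → ℝ)
    (E : (Fin (n + 1) → ℤ × ℤ) → (Fin (m + 1) → ℤ × ℤ) → Prop) : ℝ :=
  ∑ᶠ p ∈ {p : (Fin (n + 1) → ℤ × ℤ) × (Fin (m + 1) → ℤ × ℤ) |
    IsSAW n p.1 ∧ IsSAW m p.2 ∧ E p.1 p.2}, W p.1 * W' p.2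

open Classical in
theorem mass_eq (n : ℕ) (W : (Fin (n + 1) → ℤ × ℤ) → ℝ)
    (E : (Fin (n + 1) → ℤ × ℤ) → Prop) :
    mass n W E = ∑ ω ∈ (finite_saw n).toFinset.filter E, W ω := by
  have e : {ω | IsSAW n ω ∧ E ω} = (↑((finite_saw n).toFinset.filter E) : Set _) := by
    ext ω
    simp
  unfold mass
  rw [e, finsum_mem_coe_finset]

open Classical in
theorem mass2_eq (n m : ℕ) (W : (Fin (n + 1) → ℤ × ℤ) → ℝ) (W' : (Fin (m + 1) → ℤ × ℤ) → ℝ)
    (E : (Fin (n + 1) → ℤ × ℤ) → (Fin (m + 1) → ℤ × ℤ) → Prop) :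
    mass2 n m W W' E = ∑ p ∈ ((finite_saw n).toFinset ×ˢ (finite_saw m).toFinset).filter
      (fun p => E p.1 p.2), W p.1 * W' p.2 := by
  have e : {p : (Fin (n + 1) → ℤ × ℤ) × (Fin (m + 1) → ℤ × ℤ) |
      IsSAW n p.1 ∧ IsSAW m p.2 ∧ E p.1 p.2} =
      (↑(((finite_saw n).toFinset ×ˢ (finite_saw m).toFinset).filter
      (fun p => E p.1 p.2)) : Set _) := by
    ext p
    simp [and_assoc]
  unfold mass2
  rw [e, finsum_mem_coe_finset]

/-- invariance under the rotation by 90 degrees -/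
def RotInv {n : ℕ} (W : (Fin (n + 1) → ℤ × ℤ) → ℝ) : Prop :=
  ∀ ω, W (fun i => rt (ω i)) = W ω

theorem RotInv.iter {n : ℕ} {W : (Fin (n + 1) → ℤ × ℤ) → ℝ} (h : RotInv W) (k : ℕ)
    (ω : Fin (n + 1) → ℤ × ℤ) : W (fun i => rt^[k] (ω i)) = W ω := by
  induction k with
  | zero => rfl
  | succ k ih =>
    rw [← ih, ← h (fun i => rt^[k] (ω i))]
    congr 1
    funext i
    rw [Function.iterate_succ_apply']

/-- the first `N` steps of `ω` meet the first `M` steps of `x + ω'` -/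
def Meet {n m : ℕ} (N M : ℕ) (x : ℤ × ℤ) (ω : Fin (n + 1) → ℤ × ℤ)
    (ω' : Fin (m + 1) → ℤ × ℤ) : Prop :=
  ∃ (i : Fin (n + 1)) (j : Fin (m + 1)), (i : ℕ) ≤ N ∧ (j : ℕ) ≤ M ∧ ω i = x + ω' j

theorem pairs {n m N M : ℕ} (x : ℤ × ℤ) (K : Finset (ℕ × ℕ)) {W : (Fin (n + 1) → ℤ × ℤ) → ℝ}
    {W' : (Fin (m + 1) → ℤ × ℤ) → ℝ} (h0 : ∀ ω, 0 ≤ W ω) (h0' : ∀ ω, 0 ≤ W' ω)
    (hr : RotInv W) (hr' : RotInv W')
    (h : ∀ ω ω', IsSAW n ω → IsSAW m ω' →
      ∃ kl ∈ K, ∃ i ≤ n, ∃ j ≤ m, i ≤ N ∧ j ≤ M ∧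
        rt^[kl.1] (seq ω i) = x + rt^[kl.2] (seq ω' j)) :
    mass n W (fun _ => True) * mass m W' (fun _ => True) ≤
      K.card * mass2 n m W W' (Meet N M x) := by
  classical
  rw [mass_eq, mass_eq, mass2_eq, Finset.filter_true, Finset.filter_true, Finset.sum_mul_sum,
    ← Finset.sum_product']
  refine cover _ _ K _ (fun p _ => mul_nonneg (h0 _) (h0' _)) (Finset.filter_subset _ _)
    (fun kl p => (fun i => rt^[kl.1] (p.1 i), fun j => rt^[kl.2] (p.2 j))) ?_ ?_ ?_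
  · rintro ⟨ω, ω'⟩ hp
    rw [Finset.mem_product, Set.Finite.mem_toFinset, Set.Finite.mem_toFinset] at hp
    obtain ⟨kl, hkl, i, hi, j, hj, hiN, hjM, e⟩ := h ω ω' hp.1 hp.2
    refine ⟨kl, hkl, ?_⟩
    rw [Finset.mem_filter, Finset.mem_product, Set.Finite.mem_toFinset, Set.Finite.mem_toFinset]
    refine ⟨⟨saw_rt_iter kl.1 hp.1, saw_rt_iter kl.2 hp.2⟩, ⟨i, by omega⟩, ⟨j, by omega⟩, hiN,
      hjM, ?_⟩
    rw [seq_of_le ω hi, seq_of_le ω' hj] at e
    exact e
  · rintro ⟨k, l⟩ _ ⟨ω, ω'⟩ ⟨η, η'⟩ e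
    simp only [Prod.mk.injEq] at e
    refine Prod.ext (funext fun i => ?_) (funext fun j => ?_)
    · exact rt_inj.iterate k (congrFun e.1 i)
    · exact rt_inj.iterate l (congrFun e.2 j)
  · rintro ⟨k, l⟩ _ ⟨ω, ω'⟩ _
    change W (fun i => rt^[k] (ω i)) * W' (fun j => rt^[l] (ω' j)) = W ω * W' ω'
    rw [hr.iter, hr'.iter]

theorem walksW (x : ℤ × ℤ) (N n m : ℕ) (hN : 4 * (x.1 ^ 2 + x.2 ^ 2) ≤ (N : ℤ)) (hn : N ≤ n)
    (hm : N ≤ m) {W : (Fin (n + 1) → ℤ × ℤ) → ℝ} {W' : (Fin (m + 1) → ℤ × ℤ) → ℝ}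
    (h0 : ∀ ω, 0 ≤ W ω) (h0' : ∀ ω, 0 ≤ W' ω) (hr : RotInv W) (hr' : RotInv W') :
    mass n W (fun _ => True) * mass m W' (fun _ => True) ≤
      16 * mass2 n m W W' (Meet N N x) := by
  have key := pairs (n := n) (m := m) (N := N) (M := N) x (Finset.range 4 ×ˢ Finset.range 4)
    h0 h0' hr hr' (by
    intro ω ω' h h'
    rcases eq_or_ne x 0 with rfl | hx
    · exact ⟨(0, 0), by simp, 0, Nat.zero_le _, 0, Nat.zero_le _, Nat.zero_le _, Nat.zero_le _, by
        rw [seq_zero h, seq_zero h']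
        simp⟩
    · obtain ⟨g, hg0, hgx, hgn, hq1, hxn⟩ := site hx
      have hgn' : 4 * g.norm ≤ N := by rw [hgn]; exact hN
      obtain ⟨a, ⟨k, i, hi, rfl⟩, b, ⟨l, j, hj, rfl⟩, e⟩ := det_walks hg0 (wg_zero h)
        (wg_near hn h) (wg_shifted hn h hg0 hgn') (wg_zero h') (wg_near hm h')
        (wg_shifted hm h' hg0 hgn')
      refine ⟨(k % 4, l % 4), ?_, i, by omega, j, by omega, hi, hj, ?_⟩
      · rw [Finset.mem_product, Finset.mem_range, Finset.mem_range]
        exact ⟨Nat.mod_lt _ (by norm_num), Nat.mod_lt _ (by norm_num)⟩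
      · have e2 := congrArg pr e
        rw [pr_add, pr_pow, pr_pow, pr_wg, pr_wg, hgx, add_comm] at e2
        simp only
        rw [← rt_mod, ← rt_mod]
        exact e2)
  rw [Finset.card_product, Finset.card_range] at key
  norm_num at key
  exact key

theorem walks8W (x : ℤ × ℤ) (N M n m : ℕ) (hN : 4 * (x.1 ^ 2 + x.2 ^ 2) ≤ (N : ℤ))
    (hM : 121 * (x.1 ^ 2 + x.2 ^ 2) ^ 2 ≤ (M : ℤ)) (hn : N ≤ n) (hm : M ≤ m)
    {W : (Fin (n + 1) → ℤ × ℤ) → ℝ} {W' : (Fin (m + 1) → ℤ × ℤ) → ℝ}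
    (h0 : ∀ ω, 0 ≤ W ω) (h0' : ∀ ω, 0 ≤ W' ω) (hr : RotInv W) (hr' : RotInv W') :
    mass n W (fun _ => True) * mass m W' (fun _ => True) ≤
      8 * mass2 n m W W' (Meet N M x) := by
  have key := pairs (n := n) (m := m) (N := N) (M := M) x
    (Finset.range 4 ×ˢ ({0, 2} : Finset ℕ)) h0 h0' hr hr' (by
    intro ω ω' h h'
    rcases eq_or_ne x 0 with rfl | hx
    · exact ⟨(0, 0), by simp, 0, Nat.zero_le _, 0, Nat.zero_le _, Nat.zero_le _, Nat.zero_le _, by
        rw [seq_zero h, seq_zero h']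
        simp⟩
    · obtain ⟨g, hg0, hgx, hgn, hq1, hxn⟩ := site hx
      obtain ⟨Q, hQ⟩ := Int.eq_ofNat_of_zero_le (by positivity : 0 ≤ x.1 ^ 2 + x.2 ^ 2)
      rw [hQ] at hN hM hq1 hgn
      have hN' : 4 * Q ≤ N := by exact_mod_cast hN
      have hM' : 121 * Q ^ 2 ≤ M := by exact_mod_cast hM
      have hQ1 : 1 ≤ Q := by exact_mod_cast hq1
      have hQr : (x.1 : ℝ) ^ 2 + (x.2 : ℝ) ^ 2 = Q := by
        have := congrArg (fun z : ℤ => (z : ℝ)) hQ
        push_cast at this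
        exact this
      rw [hQr] at hxn
      obtain ⟨j, hj, hjf⟩ := reach (n := M) (B := 5 * Q) (v := seq ω')
        (fun i hi j hj => seq_inj h' i (by omega) j (by omega)) (by nlinarith)
      obtain ⟨a, ⟨k, i, hi, rfl⟩, j', hj', e⟩ := det_path (x := g) (N := 4 * Q) (l := M)
        (w := wg ω) (u := wg ω') (wg_zero h) (wg_near (by omega) h)
        (wg_shifted (by omega) h hg0 (by rw [hgn]; push_cast; linarith)) (wg_zero h')
        (wg_near hm h') ⟨j, hj, by
          rw [pr_wg]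
          push_cast at hjf ⊢
          linarith⟩
      rcases e with e | e
      · refine ⟨(k % 4, 0), ?_, i, by omega, j', by omega, by omega, hj', ?_⟩
        · rw [Finset.mem_product, Finset.mem_range]
          exact ⟨Nat.mod_lt _ (by norm_num), by simp⟩
        · have e2 := congrArg pr e
          rw [pr_add, pr_pow, pr_wg, pr_wg, hgx] at e2
          simp only
          rw [← rt_mod, e2, add_comm]
          rfl
      · refine ⟨((2 + k) % 4, 2), ?_, i, by omega, j', by omega, by omega, hj', ?_⟩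
        · rw [Finset.mem_product, Finset.mem_range]
          exact ⟨Nat.mod_lt _ (by norm_num), by simp⟩
        · have e2 := congrArg pr e
          rw [sub_eq_add_neg, pr_add, pr_pow, pr_wg, pr_wg] at e2
          have e3 : pr (-g) = -x := by rw [← hgx]; simp [pr]
          rw [e3] at e2
          simp only
          rw [← rt_mod, Function.iterate_add_apply, e2, rt_two, rt_two]
          abel)
  rw [Finset.card_product, Finset.card_range] at key
  norm_num at key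
  exact key

theorem pathW (x : ℤ × ℤ) (N n l : ℕ) (u : Fin (l + 1) → ℤ × ℤ) (u0 : u 0 = (0, 0))
    (u1 : ∀ i : Fin l, |(u i.succ).1 - (u i.castSucc).1| + |(u i.succ).2 - (u i.castSucc).2| = 1)
    (hN : 4 * (x.1 ^ 2 + x.2 ^ 2) ≤ (N : ℤ)) (hn : N ≤ n)
    (hu : ∃ j, 25 * (x.1 ^ 2 + x.2 ^ 2) ^ 2 < (u j).1 ^ 2 + (u j).2 ^ 2)
    {W : (Fin (n + 1) → ℤ × ℤ) → ℝ} (h0 : ∀ ω, 0 ≤ W ω) (hr : RotInv W) :
    mass n W (fun _ => True) ≤ 4 * (mass n W (fun ω => ∃ (i : Fin (n + 1)) (j : Fin (l + 1)),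
        (i : ℕ) ≤ N ∧ ω i = x + u j) +
      mass n W (fun ω => ∃ (i : Fin (n + 1)) (j : Fin (l + 1)), (i : ℕ) ≤ N ∧ ω i = x - u j)) := by
  classical
  have s0 : seq u 0 = 0 := by
    rw [seq_of_le u (Nat.zero_le l)]
    exact u0
  have s1 : ∀ k < l, Near (seq u k) (seq u (k + 1)) := by
    intro k hk
    rw [seq_of_le u hk.le, seq_of_le u hk]
    exact (u1 ⟨k, hk⟩).le
  rw [mass_eq, mass_eq, mass_eq, Finset.filter_true]
  obtain ⟨S, hS⟩ : ∃ S, S = (finite_saw n).toFinset := ⟨_, rfl⟩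
  rw [← hS]
  obtain ⟨M1, hM1⟩ : ∃ M1, M1 = S.filter (fun ω => ∃ (i : Fin (n + 1)) (j : Fin (l + 1)),
    (i : ℕ) ≤ N ∧ ω i = x + u j) := ⟨_, rfl⟩
  obtain ⟨M2, hM2⟩ : ∃ M2, M2 = S.filter (fun ω => ∃ (i : Fin (n + 1)) (j : Fin (l + 1)),
    (i : ℕ) ≤ N ∧ ω i = x - u j) := ⟨_, rfl⟩
  have hun : ∑ ω ∈ M1 ∪ M2, W ω ≤ ∑ ω ∈ M1, W ω + ∑ ω ∈ M2, W ω := by
    rw [← Finset.sum_union_inter]
    have : 0 ≤ ∑ ω ∈ M1 ∩ M2, W ω := Finset.sum_nonneg fun ω _ => h0 ω
    linarith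
  have key := cover S (M1 ∪ M2) (Finset.range 4) W (fun ω _ => h0 ω) (by
      rw [hM1, hM2]
      exact Finset.union_subset (Finset.filter_subset _ _) (Finset.filter_subset _ _))
    (fun k ω => fun i => rt^[k] (ω i)) (by
      intro ω hω
      rw [hS, Set.Finite.mem_toFinset] at hω
      have h : IsSAW n ω := hω
      rcases eq_or_ne x 0 with rfl | hx
      · refine ⟨0, by simp, ?_⟩
        rw [Finset.mem_union]
        left
        rw [hM1, Finset.mem_filter, hS, Set.Finite.mem_toFinset]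
        refine ⟨h, 0, 0, Nat.zero_le _, ?_⟩
        change ω 0 = 0 + u 0
        rw [h.1, u0]
        rfl
      · obtain ⟨g, hg0, hgx, hgn, hq1, hxn⟩ := site hx
        obtain ⟨Q, hQ⟩ := Int.eq_ofNat_of_zero_le (by positivity : 0 ≤ x.1 ^ 2 + x.2 ^ 2)
        rw [hQ] at hN hu hq1 hgn
        have hN' : 4 * Q ≤ N := by exact_mod_cast hN
        have hQ1 : 1 ≤ Q := by exact_mod_cast hq1
        have hQr : (x.1 : ℝ) ^ 2 + (x.2 : ℝ) ^ 2 = Q := by
          have := congrArg (fun z : ℤ => (z : ℝ)) hQ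
          push_cast at this
          exact this
        rw [hQr] at hxn
        obtain ⟨j, hj⟩ := hu
        obtain ⟨a, ⟨k, i, hi, rfl⟩, j', hj', e⟩ := det_path (x := g) (N := 4 * Q) (l := l)
          (w := wg ω) (u := wg u) (wg_zero h) (wg_near (by omega) h)
          (wg_shifted (by omega) h hg0 (by rw [hgn]; push_cast; linarith)) (by
            apply pr_inj
            rw [pr_wg, s0]
            rfl) (by
            intro k hk
            rw [pr_wg, pr_wg]
            exact s1 k hk) ⟨j.1, by omega, by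
              rw [pr_wg, seq_of_le u (by omega)]
              have h1 : (25 : ℝ) * (Q : ℝ) ^ 2 < ((u j).1 : ℝ) ^ 2 + ((u j).2 : ℝ) ^ 2 := by
                exact_mod_cast hj
              have h2 : ‖pt (u j)‖ ^ 2 = ((u j).1 : ℝ) ^ 2 + ((u j).2 : ℝ) ^ 2 := by
                rw [Complex.sq_norm, Complex.normSq_apply, pt_re, pt_im]
                ring
              have h3 := norm_nonneg (pt (u j))
              have h4 : 5 * (Q : ℝ) < ‖pt (u j)‖ := by
                by_contra hcon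
                push Not at hcon
                have : (0 : ℝ) ≤ Q := Nat.cast_nonneg _
                nlinarith
              change ((4 * Q : ℕ) : ℝ) + ‖GaussianInt.toComplex g‖ < ‖pt (u j)‖
              push_cast
              linarith⟩
        rcases e with e | e
        · refine ⟨k % 4, Finset.mem_range.2 (Nat.mod_lt _ (by norm_num)), ?_⟩
          rw [Finset.mem_union]
          left
          rw [hM1, Finset.mem_filter, hS, Set.Finite.mem_toFinset]
          refine ⟨saw_rt_iter _ h, ⟨i, by omega⟩, ⟨j', by omega⟩, by simp only; omega, ?_⟩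
          have e2 := congrArg pr e
          rw [pr_add, pr_pow, pr_wg, pr_wg, hgx, seq_of_le ω (by omega), seq_of_le u hj'] at e2
          change rt^[k % 4] (ω ⟨i, by omega⟩) = _
          rw [← rt_mod, e2, add_comm]
        · refine ⟨(2 + k) % 4, Finset.mem_range.2 (Nat.mod_lt _ (by norm_num)), ?_⟩
          rw [Finset.mem_union]
          right
          rw [hM2, Finset.mem_filter, hS, Set.Finite.mem_toFinset]
          refine ⟨saw_rt_iter _ h, ⟨i, by omega⟩, ⟨j', by omega⟩, by simp only; omega, ?_⟩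
          have e2 := congrArg pr e
          have e3 : pr (-g) = -x := by rw [← hgx]; simp [pr]
          rw [sub_eq_add_neg, pr_add, pr_pow, pr_wg, pr_wg, e3, seq_of_le ω (by omega),
            seq_of_le u hj'] at e2
          change rt^[(2 + k) % 4] (ω ⟨i, by omega⟩) = _
          rw [← rt_mod, Function.iterate_add_apply, e2, rt_two]
          abel)
    (by
      intro k _ ω ω' e
      funext i
      exact rt_inj.iterate k (congrFun e i))
    (fun k _ ω _ => hr.iter k ω)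
  rw [Finset.card_range] at key
  push_cast at key
  have key2 : ∑ ω ∈ S, W ω ≤ 4 * (∑ ω ∈ M1, W ω + ∑ ω ∈ M2, W ω) := by linarith
  rw [hM1, hM2] at key2
  convert key2

end Pool.Agent.H986.DS
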