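import Pool.Agent.H986.DS.Sharp
import Pool.Agent.H986.DS.Wt

/-!
The sharp theorem for random self-avoiding walks.
-/

set_option autoImplicit false

namespace Pool.Agent.H986.DS

open Pool.Agent.H986.MT Complex

theorem two_ne {g : GaussianInt} (hg : g ≠ 0) : 2 * g ≠ 0 := mul_ne_zero two_ne_zero hg

theorem two_norm (g : GaussianInt) : (2 * g).norm = 4 * g.norm := by
  rw [Zsqrtd.norm_mul]
  have : (2 : GaussianInt).norm = 4 := by
    rw [Zsqrtd.norm_def]
    simp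
  rw [this]

theorem wg_pig {n N : ℕ} (hN : N ≤ n) {ω : Fin (n + 1) → ℤ × ℤ} (h : IsSAW n ω)
    {g : GaussianInt} (hg : g ≠ 0) (hN' : 4 * g.norm ≤ N) :
    ∃ i ≤ N, ∃ j ≤ N, wg ω i ≠ wg ω j ∧ 2 * g ∣ wg ω i - wg ω j := by
  have inj : ∀ i ≤ N, ∀ j ≤ N, wg ω i = wg ω j → i = j := fun i hi j hj e =>
    seq_inj h i (by omega) j (by omega) (congrArg pr e)
  obtain ⟨i, hi, j, hj, hij, hd⟩ := pig (two_ne hg) (by rw [two_norm]; exact hN') inj
  exact ⟨i, hi, j, hj, fun e => hij (inj i hi j hj e), hd⟩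

theorem wg_contact {n N : ℕ} (hN : N ≤ n) {ω : Fin (n + 1) → ℤ × ℤ} (h : IsSAW n ω)
    {g : GaussianInt} (hg : g ≠ 0) (hN' : 4 * g.norm ≤ N) :
    ∃ d, d ≠ 0 ∧ 2 * g ∣ d ∧ ∃ a ∈ SS (wg ω) N, ∃ b ∈ SS (wg ω) N, a = b + d := by
  obtain ⟨i, hi, j, hj, hij, hd⟩ := wg_pig hN h hg hN'
  exact ⟨wg ω i - wg ω j, sub_ne_zero.2 hij, hd, wg ω i, ⟨0, i, hi, by simp⟩, wg ω j,
    ⟨0, j, hj, by simp⟩, by ring⟩

theorem path_pig {l : ℕ} {u : Fin (l + 1) → ℤ × ℤ} {g : GaussianInt} (hg : g ≠ 0)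
    (hu : 4 * g.norm < ((Set.range u).ncard : ℤ)) :
    ∃ i ≤ l, ∃ j ≤ l, wg u i ≠ wg u j ∧ 2 * g ∣ wg u i - wg u j := by
  classical
  obtain ⟨S, hS⟩ : ∃ S, S = Finset.univ.image u := ⟨_, rfl⟩
  have hc : (Set.range u).ncard = S.card := by
    rw [← Set.ncard_coe_finset, hS, Finset.coe_image, Finset.coe_univ, Set.image_univ]
  rw [hc] at hu
  have hn0 : 0 ≤ g.norm := GaussianInt.norm_nonneg g
  have hS1 : 1 ≤ S.card := by omega
  have hmem : ∀ p ∈ S, ∃ a : Fin (l + 1), u a = p := by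
    intro p hp
    rw [hS, Finset.mem_image] at hp
    obtain ⟨a, _, ha⟩ := hp
    exact ⟨a, ha⟩
  have hex : ∀ k : Fin S.card, ∃ a : Fin (l + 1), u a = (S.equivFin.symm k).1 := fun k =>
    hmem _ (S.equivFin.symm k).2
  choose idx hidx using hex
  have hpr : ∀ a : Fin (l + 1), pr (wg u a) = u a := by
    intro a
    rw [pr_wg, seq_of_le u (by omega)]
  obtain ⟨f, hf⟩ : ∃ f : ℕ → GaussianInt, f = fun k => if h : k < S.card then wg u (idx ⟨k, h⟩)
    else 0 := ⟨_, rfl⟩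
  have hfk : ∀ k (h : k < S.card), f k = wg u (idx ⟨k, h⟩) := by
    intro k h
    rw [hf]
    simp only [h, dite_true]
  have inj : ∀ i ≤ S.card - 1, ∀ j ≤ S.card - 1, f i = f j → i = j := by
    intro i hi j hj e
    have hi' : i < S.card := by omega
    have hj' : j < S.card := by omega
    rw [hfk i hi', hfk j hj'] at e
    have e2 := congrArg pr e
    rw [hpr, hpr, hidx, hidx] at e2
    have e3 := S.equivFin.symm.injective (Subtype.ext e2)
    simpa using e3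
  obtain ⟨i, hi, j, hj, hij, hd⟩ := pig (two_ne hg) (N := S.card - 1) (by
    rw [two_norm]
    omega) inj
  have hi' : i < S.card := by omega
  have hj' : j < S.card := by omega
  refine ⟨idx ⟨i, hi'⟩, by omega, idx ⟨j, hj'⟩, by omega, ?_, ?_⟩
  · rw [← hfk i hi', ← hfk j hj']
    exact fun e => hij (inj i hi j hj e)
  · rw [← hfk i hi', ← hfk j hj']
    exact hd

/-- **Two walks.** -/
theorem walksS (x : ℤ × ℤ) (N n m : ℕ) (hN : 4 * (x.1 ^ 2 + x.2 ^ 2) ≤ (N : ℤ))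
    (hn : N ≤ n) (hm : N ≤ m)
    {W : (Fin (n + 1) → ℤ × ℤ) → ℝ} {W' : (Fin (m + 1) → ℤ × ℤ) → ℝ}
    (h0 : ∀ ω, 0 ≤ W ω) (h0' : ∀ ω, 0 ≤ W' ω) (hr : RotInv W) (hr' : RotInv W') :
    mass n W (fun _ => True) * mass m W' (fun _ => True) ≤
      8 * mass2 n m W W' (Meet N N x) := by
  have key := pairs (n := n) (m := m) (N := N) (M := N) x
    (Finset.range 4 ×ˢ ({0, 2} : Finset ℕ)) h0 h0' hr hr' (by
    intro ω ω' h h'
    rcases eq_or_ne x 0 with rfl | hx
    · exact ⟨(0, 0), by simp, 0, Nat.zero_le _, 0, Nat.zero_le _, Nat.zero_le _, Nat.zero_le _, by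
        rw [seq_zero h, seq_zero h']
        simp⟩
    · obtain ⟨g, hg0, hgx, hgn, hq1, hxn⟩ := site hx
      rw [← hgn] at hN
      obtain ⟨a, ⟨k, i, hi, rfl⟩, j', hj', e⟩ := sharp8 (x := g) hg0 (N := N) (M := N)
        (w := wg ω) (w' := wg ω') (wg_zero h) (wg_near hn h) (wg_contact hn h hg0 hN)
        (wg_zero h') (wg_near hm h') (wg_pig hm h' hg0 hN)
      rcases e with e | e
      · refine ⟨(k % 4, 0), ?_, i, by omega, j', by omega, by omega, hj', ?_⟩
        · rw [Finset.mem_product, Finset.mem_range]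
          exact ⟨Nat.mod_lt _ (by norm_num), by simp⟩
        · have e2 := congrArg pr e
          rw [pr_add, pr_pow, pr_wg, pr_wg, hgx] at e2
          simp only
          rw [← rt_mod, e2, add_comm]
          rfl
      · refine ⟨((2 + k) % 4, 2), ?_, i, by omega, j', by omega, by omega, hj', ?_⟩
        · rw [Finset.mem_product, Finset.mem_range]
          exact ⟨Nat.mod_lt _ (by norm_num), by simp⟩
        · have e2 := congrArg pr e
          rw [sub_eq_add_neg, pr_add, pr_pow, pr_wg, pr_wg] at e2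
          have e3 : pr (-g) = -x := by rw [← hgx]; simp [pr]
          rw [e3] at e2
          simp only
          rw [← rt_mod, Function.iterate_add_apply, e2, rt_two, rt_two]
          abel)
  rw [Finset.card_product, Finset.card_range] at key
  norm_num at key
  exact key

/-- **A walk and a path.** -/
theorem pathS (x : ℤ × ℤ) (N n l : ℕ) (u : Fin (l + 1) → ℤ × ℤ) (u0 : u 0 = (0, 0))
    (u1 : ∀ i : Fin l, |(u i.succ).1 - (u i.castSucc).1| + |(u i.succ).2 - (u i.castSucc).2| = 1)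
    (hN : 4 * (x.1 ^ 2 + x.2 ^ 2) ≤ (N : ℤ)) (hn : N ≤ n)
    (hu : 4 * (x.1 ^ 2 + x.2 ^ 2) < ((Set.range u).ncard : ℤ))
    {W : (Fin (n + 1) → ℤ × ℤ) → ℝ} (h0 : ∀ ω, 0 ≤ W ω) (hr : RotInv W) :
    mass n W (fun _ => True) ≤ 4 * (mass n W (fun ω => ∃ (i : Fin (n + 1)) (j : Fin (l + 1)),
        (i : ℕ) ≤ N ∧ ω i = x + u j) +
      mass n W (fun ω => ∃ (i : Fin (n + 1)) (j : Fin (l + 1)), (i : ℕ) ≤ N ∧ ω i = x - u j)) := by
  classical
  have s0 : seq u 0 = 0 := by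
    rw [seq_of_le u (Nat.zero_le l)]
    exact u0
  have s1 : ∀ k < l, Near (seq u k) (seq u (k + 1)) := by
    intro k hk
    rw [seq_of_le u hk.le, seq_of_le u hk]
    exact (u1 ⟨k, hk⟩).le
  rw [mass_eq, mass_eq, mass_eq, Finset.filter_true]
  obtain ⟨S, hS⟩ : ∃ S, S = (finite_saw n).toFinset := ⟨_, rfl⟩
  rw [← hS]
  obtain ⟨M1, hM1⟩ : ∃ M1, M1 = S.filter (fun ω => ∃ (i : Fin (n + 1)) (j : Fin (l + 1)),
    (i : ℕ) ≤ N ∧ ω i = x + u j) := ⟨_, rfl⟩
  obtain ⟨M2, hM2⟩ : ∃ M2, M2 = S.filter (fun ω => ∃ (i : Fin (n + 1)) (j : Fin (l + 1)),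
    (i : ℕ) ≤ N ∧ ω i = x - u j) := ⟨_, rfl⟩
  have hun : ∑ ω ∈ M1 ∪ M2, W ω ≤ ∑ ω ∈ M1, W ω + ∑ ω ∈ M2, W ω := by
    rw [← Finset.sum_union_inter]
    have : 0 ≤ ∑ ω ∈ M1 ∩ M2, W ω := Finset.sum_nonneg fun ω _ => h0 ω
    linarith
  have key := cover S (M1 ∪ M2) (Finset.range 4) W (fun ω _ => h0 ω) (by
      rw [hM1, hM2]
      exact Finset.union_subset (Finset.filter_subset _ _) (Finset.filter_subset _ _))
    (fun k ω => fun i => rt^[k] (ω i)) (by
      intro ω hω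
      rw [hS, Set.Finite.mem_toFinset] at hω
      have h : IsSAW n ω := hω
      rcases eq_or_ne x 0 with rfl | hx
      · refine ⟨0, by simp, ?_⟩
        rw [Finset.mem_union]
        left
        rw [hM1, Finset.mem_filter, hS, Set.Finite.mem_toFinset]
        refine ⟨h, 0, 0, Nat.zero_le _, ?_⟩
        change ω 0 = 0 + u 0
        rw [h.1, u0]
        rfl
      · obtain ⟨g, hg0, hgx, hgn, hq1, hxn⟩ := site hx
        rw [← hgn] at hN hu
        obtain ⟨a, ⟨k, i, hi, rfl⟩, j', hj', e⟩ := sharp8 (x := g) hg0 (N := N) (M := l)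
          (w := wg ω) (w' := wg u) (wg_zero h) (wg_near hn h) (wg_contact hn h hg0 hN) (by
            apply pr_inj
            rw [pr_wg, s0]
            rfl) (by
            intro k hk
            rw [pr_wg, pr_wg]
            exact s1 k hk) (path_pig hg0 hu)
        rcases e with e | e
        · refine ⟨k % 4, Finset.mem_range.2 (Nat.mod_lt _ (by norm_num)), ?_⟩
          rw [Finset.mem_union]
          left
          rw [hM1, Finset.mem_filter, hS, Set.Finite.mem_toFinset]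
          refine ⟨saw_rt_iter _ h, ⟨i, by omega⟩, ⟨j', by omega⟩, by simp only; omega, ?_⟩
          have e2 := congrArg pr e
          rw [pr_add, pr_pow, pr_wg, pr_wg, hgx, seq_of_le ω (by omega), seq_of_le u hj'] at e2
          change rt^[k % 4] (ω ⟨i, by omega⟩) = _
          rw [← rt_mod, e2, add_comm]
        · refine ⟨(2 + k) % 4, Finset.mem_range.2 (Nat.mod_lt _ (by norm_num)), ?_⟩
          rw [Finset.mem_union]
          right
          rw [hM2, Finset.mem_filter, hS, Set.Finite.mem_toFinset]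
          refine ⟨saw_rt_iter _ h, ⟨i, by omega⟩, ⟨j', by omega⟩, by simp only; omega, ?_⟩
          have e2 := congrArg pr e
          have e3 : pr (-g) = -x := by rw [← hgx]; simp [pr]
          rw [sub_eq_add_neg, pr_add, pr_pow, pr_wg, pr_wg, e3, seq_of_le ω (by omega),
            seq_of_le u hj'] at e2
          change rt^[(2 + k) % 4] (ω ⟨i, by omega⟩) = _
          rw [← rt_mod, Function.iterate_add_apply, e2, rt_two]
          abel)
    (by
      intro k _ ω ω' e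
      funext i
      exact rt_inj.iterate k (congrFun e i))
    (fun k _ ω _ => hr.iter k ω)
  rw [Finset.card_range] at key
  push_cast at key
  have key2 : ∑ ω ∈ S, W ω ≤ 4 * (∑ ω ∈ M1, W ω + ∑ ω ∈ M2, W ω) := by linarith
  rw [hM1, hM2] at key2
  convert key2

/-- **Two paths.** -/
theorem detS (x : ℤ × ℤ) {l l' : ℕ} {w : Fin (l + 1) → ℤ × ℤ} {u : Fin (l' + 1) → ℤ × ℤ}
    (w0 : w 0 = (0, 0))
    (w1 : ∀ i : Fin l, |(w i.succ).1 - (w i.castSucc).1| + |(w i.succ).2 - (w i.castSucc).2| = 1)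
    (u0 : u 0 = (0, 0))
    (u1 : ∀ i : Fin l', |(u i.succ).1 - (u i.castSucc).1| + |(u i.succ).2 - (u i.castSucc).2| = 1)
    (hw : 4 * (x.1 ^ 2 + x.2 ^ 2) < ((Set.range w).ncard : ℤ))
    (hu : 4 * (x.1 ^ 2 + x.2 ^ 2) < ((Set.range u).ncard : ℤ)) :
    ∃ k < 4, ∃ (i : Fin (l + 1)) (j : Fin (l' + 1)),
      rt^[k] (w i) = x + u j ∨ rt^[k] (w i) = x - u j := by
  rcases eq_or_ne x 0 with rfl | hx
  · refine ⟨0, by norm_num, 0, 0, Or.inl ?_⟩
    rw [w0, u0]
    simp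
  · obtain ⟨g, hg0, hgx, hgn, hq1, hxn⟩ := site hx
    rw [← hgn] at hw hu
    obtain ⟨i₁, hi₁, i₂, hi₂, hne, hd⟩ := path_pig hg0 hw
    have near : ∀ {l : ℕ} {u : Fin (l + 1) → ℤ × ℤ}, (∀ i : Fin l,
        |(u i.succ).1 - (u i.castSucc).1| + |(u i.succ).2 - (u i.castSucc).2| = 1) →
        ∀ k < l, Near (pr (wg u k)) (pr (wg u (k + 1))) := by
      intro l u u1 k hk
      rw [pr_wg, pr_wg, seq_of_le u hk.le, seq_of_le u hk]
      exact (u1 ⟨k, hk⟩).le
    have zero : ∀ {l : ℕ} {u : Fin (l + 1) → ℤ × ℤ}, u 0 = (0, 0) → wg u 0 = 0 := by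
      intro l u u0
      apply pr_inj
      rw [pr_wg, seq_of_le u (Nat.zero_le l)]
      exact u0
    obtain ⟨a, ⟨k, i, hi, rfl⟩, j', hj', e⟩ := sharp8 (x := g) hg0 (N := l) (M := l')
      (w := wg w) (w' := wg u) (zero w0) (near w1) ⟨_, sub_ne_zero.2 hne, hd, wg w i₁,
        ⟨0, i₁, hi₁, by simp⟩, wg w i₂, ⟨0, i₂, hi₂, by simp⟩, by ring⟩ (zero u0) (near u1)
      (path_pig hg0 hu)
    rcases e with e | e
    · refine ⟨k % 4, Nat.mod_lt _ (by norm_num), ⟨i, by omega⟩, ⟨j', by omega⟩, Or.inl ?_⟩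
      have e2 := congrArg pr e
      rw [pr_add, pr_pow, pr_wg, pr_wg, hgx, seq_of_le w hi, seq_of_le u hj'] at e2
      rw [← rt_mod, e2, add_comm]
    · refine ⟨(2 + k) % 4, Nat.mod_lt _ (by norm_num), ⟨i, by omega⟩, ⟨j', by omega⟩, Or.inr ?_⟩
      have e2 := congrArg pr e
      have e3 : pr (-g) = -x := by rw [← hgx]; simp [pr]
      rw [sub_eq_add_neg, pr_add, pr_pow, pr_wg, pr_wg, e3, seq_of_le w hi,
        seq_of_le u hj'] at e2
      rw [← rt_mod, Function.iterate_add_apply, e2, rt_two]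
      abel

end Pool.Agent.H986.DS
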