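import Pool.Agent.H986.DS.Main

/-!
Grids, sets of sites and a stronger form of the growing argument.
-/

set_option autoImplicit false

namespace Pool.Agent.H986.DS

open Pool.Agent.H986.MT Complex

/-- two periodic paths in perpendicular directions meet -/
theorem grid {K K' : Set ℂ} {p q L : ℂ} (hL0 : L ≠ 0) {r₀ : ℝ} (hK : ∀ y ∈ K, ‖y‖ ≤ r₀)
    (hK' : ∀ y ∈ K', ‖y‖ ≤ r₀) (h : JoinedIn K p (p + L)) (h' : JoinedIn K' q (q + I * L)) :
    ∃ m n : ℤ, ∃ y ∈ K, ∃ y' ∈ K', y + m * L = y' + n * (I * L) := by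
  obtain ⟨r, hr⟩ : ∃ r, r = r₀ / ‖L‖ := ⟨_, rfl⟩
  have hLn : 0 < ‖L‖ := norm_pos_iff.2 hL0
  have hrb : ∀ y : ℂ, ‖y‖ ≤ r₀ → ‖y / L‖ ≤ r := by
    intro y hy
    rw [norm_div, hr]
    exact div_le_div_of_nonneg_right hy hLn.le
  let F : Set ℂ := {z | ∃ m : ℤ, ∃ y ∈ K, z = y / L + m}
  let B : Set ℂ := {z | ∃ m : ℤ, ∃ y ∈ K', z = y / L + m * I}
  have stepF : ∀ m : ℤ, JoinedIn F (p / L + m) (p / L + (m + 1 : ℤ)) := by
    intro m
    have j1 := joined_map (G := F) (fun y => y / L + m) (by fun_prop) h (fun z hz => ⟨m, z, hz, rfl⟩)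
    have e : (p + L) / L + (m : ℂ) = p / L + (m + 1 : ℤ) := by
      push_cast
      field_simp
      ring
    simp only [e] at j1
    exact j1
  have stepB : ∀ m : ℤ, JoinedIn B (q / L + m * I) (q / L + (m + 1 : ℤ) * I) := by
    intro m
    have j1 := joined_map (G := B) (fun y => y / L + m * I) (by fun_prop) h'
      (fun z hz => ⟨m, z, hz, rfl⟩)
    have e : (q + I * L) / L + (m : ℂ) * I = q / L + (m + 1 : ℤ) * I := by
      push_cast
      field_simp
      ring
    simp only [e] at j1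
    exact j1
  have chF : ∀ (m : ℤ) (k : ℕ), JoinedIn F (p / L + m) (p / L + (m + k : ℤ)) := by
    intro m k
    induction k with
    | zero =>
      simp only [Nat.cast_zero, add_zero]
      exact JoinedIn.refl (stepF m).source_mem
    | succ k ih =>
      have := stepF (m + k)
      have e : m + ((k + 1 : ℕ) : ℤ) = m + (k : ℤ) + 1 := by push_cast; ring
      rw [e]
      exact ih.trans this
  have chB : ∀ (m : ℤ) (k : ℕ), JoinedIn B (q / L + m * I) (q / L + (m + k : ℤ) * I) := by
    intro m k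
    induction k with
    | zero =>
      simp only [Nat.cast_zero, add_zero]
      exact JoinedIn.refl (stepB m).source_mem
    | succ k ih =>
      have := stepB (m + k)
      have e : m + ((k + 1 : ℕ) : ℤ) = m + (k : ℤ) + 1 := by push_cast; ring
      rw [e]
      exact ih.trans this
  obtain ⟨M, hM⟩ : ∃ M : ℕ, 2 * r + 1 ≤ M := exists_nat_ge _
  have jF := chF (-(M : ℤ)) (2 * M)
  have jB := chB (-(M : ℤ)) (2 * M)
  have e2 : -(M : ℤ) + ((2 * M : ℕ) : ℤ) = M := by push_cast; ring
  rw [e2] at jF jB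
  have hreB : ∀ x ∈ B, |x.re| ≤ r := by
    rintro x ⟨m, y, hy, rfl⟩
    have h1 := Complex.abs_re_le_norm (y / L)
    have h2 := hrb y (hK' y hy)
    have e3 : (y / L + m * I).re = (y / L).re := by simp
    rw [e3]
    linarith
  have himF : ∀ x ∈ F, |x.im| ≤ r := by
    rintro x ⟨m, y, hy, rfl⟩
    have h1 := Complex.abs_im_le_norm (y / L)
    have h2 := hrb y (hK y hy)
    have e3 : (y / L + m).im = (y / L).im := by simp
    rw [e3]
    linarith
  have hp := abs_le.1 ((Complex.abs_re_le_norm (p / L)).trans (hrb p (hK p h.source_mem)))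
  have hq := abs_le.1 ((Complex.abs_im_le_norm (q / L)).trans (hrb q (hK' q h'.source_mem)))
  obtain ⟨x, ⟨m, y, hy, e3⟩, ⟨n, y', hy', e4⟩⟩ := crossJ jF jB
    (by
      intro x hx
      have := abs_le.1 (hreB x hx)
      simp only [add_re, intCast_re, Int.cast_neg, Int.cast_natCast, neg_re, natCast_re]
      linarith)
    (by
      intro x hx
      have := abs_le.1 (hreB x hx)
      simp only [add_re, intCast_re, Int.cast_natCast, natCast_re]
      linarith)
    (by
      intro x hx
      have := abs_le.1 (himF x hx)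
      have e5 : (q / L + ((-(M : ℤ) : ℤ) : ℂ) * I).im = (q / L).im - M := by
        simp
        ring
      rw [e5]
      linarith)
    (by
      intro x hx
      have := abs_le.1 (himF x hx)
      have e5 : (q / L + (((M : ℤ) : ℤ) : ℂ) * I).im = (q / L).im + M := by
        simp
      rw [e5]
      linarith)
  refine ⟨m, n, y, hy, y', hy', ?_⟩
  have e6 : y / L + m = y' / L + n * I := by rw [← e3, e4]
  calc y + m * L = (y / L + m) * L := by field_simp
    _ = (y' / L + n * I) * L := by rw [e6]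
    _ = _ := by field_simp

/-- the edges between the sites of a set -/
def GP (P : Set GaussianInt) : Set ℂ :=
  {y | ∃ p ∈ P, ∃ q ∈ P, Near (pr p) (pr q) ∧ ∃ b ∈ Set.Icc (0 : ℝ) 1,
    y = GaussianInt.toComplex p + b * (GaussianInt.toComplex q - GaussianInt.toComplex p)}

theorem near_refl (p : ℤ × ℤ) : Near p p := by simp [Near]

theorem near_symm {p q : ℤ × ℤ} (h : Near p q) : Near q p := by
  unfold Near at *
  rw [abs_sub_comm, abs_sub_comm q.2 p.2] at h
  exact h

theorem gp_site {P : Set GaussianInt} {p : GaussianInt} (h : p ∈ P) :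
    GaussianInt.toComplex p ∈ GP P :=
  ⟨p, h, p, h, near_refl _, 0, by simp, by simp⟩

theorem gp_meet {P Q : Set GaussianInt} {y : ℂ} (h : y ∈ GP P) (h' : y ∈ GP Q) :
    ∃ p ∈ P, p ∈ Q := by
  obtain ⟨p, hp, q, hq, hn, b, hb, e⟩ := h
  obtain ⟨p', hp', q', hq', hn', b', hb', e'⟩ := h'
  rw [e] at e'
  rw [← pt_pr, ← pt_pr, ← pt_pr, ← pt_pr] at e'
  rcases edge hn hn' hb hb' e' with (h1 | h1) | (h1 | h1)
  · exact ⟨p, hp, by rw [pr_inj h1]; exact hp'⟩
  · exact ⟨p, hp, by rw [pr_inj h1]; exact hq'⟩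
  · exact ⟨q, hq, by rw [pr_inj h1]; exact hp'⟩
  · exact ⟨q, hq, by rw [pr_inj h1]; exact hq'⟩

theorem gp_step {P : Set GaussianInt} {p q : GaussianInt} (hp : p ∈ P) (hq : q ∈ P)
    (hn : Near (pr p) (pr q)) :
    JoinedIn (GP P) (GaussianInt.toComplex p) (GaussianInt.toComplex q) := by
  refine JoinedIn.ofLine (f := fun b : ℝ => GaussianInt.toComplex p +
    (b : ℂ) * (GaussianInt.toComplex q - GaussianInt.toComplex p)) (by fun_prop) (by simp)
    (by simp) ?_
  rintro _ ⟨b, hb, rfl⟩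
  exact ⟨p, hp, q, hq, hn, b, hb, rfl⟩

theorem gp_path {P : Set GaussianInt} {w : ℕ → GaussianInt} {n : ℕ}
    (hw : ∀ k < n, Near (pr (w k)) (pr (w (k + 1)))) (hP : ∀ k ≤ n, w k ∈ P) :
    JoinedIn (GP P) (GaussianInt.toComplex (w 0)) (GaussianInt.toComplex (w n)) := by
  induction n with
  | zero => exact JoinedIn.refl (gp_site (hP 0 le_rfl))
  | succ n ih =>
    exact (ih (fun k hk => hw k (by omega)) (fun k hk => hP k (by omega))).trans
      (gp_step (hP n (by omega)) (hP (n + 1) le_rfl) (hw n (by omega)))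

/-- the growing argument, with the state just before the first contact -/
theorem grow2 {N : ℕ} {w : ℕ → GaussianInt} (w0 : w 0 = 0)
    (hw : ∀ k < N, Near (pr (w k)) (pr (w (k + 1)))) {v : GaussianInt} (hv : v ≠ 0)
    (hN : ∃ d, d ≠ 0 ∧ v ∣ d ∧ ∃ a ∈ SS w N, ∃ b ∈ SS w N, a = b + d) :
    ∃ s < N, (∀ a ∈ SS w s, ∀ b ∈ SS w s, v ∣ a - b → a = b) ∧
      ∃ a ∈ SS w (s + 1), ∃ b ∈ SS w (s + 1), a = b + v ∧
        (∀ c ∈ SS w s, v ∣ a - c → a = c + v) ∧ ∀ c ∈ SS w s, v ∣ b - c → b = c := by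
  classical
  obtain ⟨t, ht, hmin, htN⟩ : ∃ t, (∃ d, d ≠ 0 ∧ v ∣ d ∧ ∃ a ∈ SS w t, ∃ b ∈ SS w t, a = b + d) ∧
      (∀ s < t, ¬ ∃ d, d ≠ 0 ∧ v ∣ d ∧ ∃ a ∈ SS w s, ∃ b ∈ SS w s, a = b + d) ∧ t ≤ N := by
    let Q : ℕ → Prop := fun t => ∃ d, d ≠ 0 ∧ v ∣ d ∧ ∃ a ∈ SS w t, ∃ b ∈ SS w t, a = b + d
    have hQ : ∃ t, Q t := ⟨N, hN⟩
    exact ⟨Nat.find hQ, Nat.find_spec hQ, fun s hs => Nat.find_min hQ hs, Nat.find_min' hQ hN⟩
  rcases t with _ | s
  · exfalso
    obtain ⟨d, hd, _, a, ⟨k, j, hj, rfl⟩, b, ⟨k', j', hj', rfl⟩, e⟩ := ht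
    have h1 : j = 0 := by omega
    have h2 : j' = 0 := by omega
    subst h1 h2
    rw [w0] at e
    simp at e
    exact hd e.symm
  have hmin' := hmin s (by omega)
  have U : ∀ a ∈ SS w s, ∀ b ∈ SS w s, v ∣ a - b → a = b := by
    intro a ha b hb h
    by_contra hne
    exact hmin' ⟨a - b, sub_ne_zero.2 hne, h, a, ha, b, hb, by ring⟩
  obtain ⟨a, ha, b, hb, hab⟩ := grow w0 (N := s + 1) (fun k hk => hw k (by omega)) hv ht
  obtain ⟨z, hz⟩ : ∃ z, z = w (s + 1) := ⟨_, rfl⟩
  have cas : ∀ p ∈ SS w (s + 1), p ∈ SS w s ∨ ∃ k, p = II ^ k * z := by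
    intro p hp
    rw [hz]
    exact SS_succ hp
  -- the new site is not old
  have hzn : z ∉ SS w s := by
    intro hzs
    have hall : ∀ p ∈ SS w (s + 1), p ∈ SS w s := by
      intro p hp
      rcases cas p hp with h | ⟨k, rfl⟩
      · exact h
      · exact SS_rot hzs k
    have h1 := U a (hall a ha) b (hall b hb) (by rw [hab]; simp)
    rw [hab] at h1
    exact hv (by simpa using h1)
  have newS : ∀ k, II ^ k * z ∈ SS w (s + 1) := fun k => SS_rot (hz ▸ SS_self w (s + 1)) k
  have hback : ∀ k : ℕ, ∀ c : GaussianInt, II ^ k * z - c = II ^ k * (z - II ^ (3 * k) * c) := by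
    intro k c
    rw [mul_sub, ← mul_assoc, mul_comm (II ^ k) (II ^ (3 * k)), II_inv, one_mul]
  have hfwd : ∀ k : ℕ, ∀ c : GaussianInt, z - II ^ (3 * k) * c = II ^ (3 * k) * (II ^ k * z - c) := by
    intro k c
    rw [mul_sub, ← mul_assoc, II_inv, one_mul]
  refine ⟨s, by omega, U, ?_⟩
  by_cases hA : ∃ a0 ∈ SS w s, v ∣ z - a0
  · -- an old site is congruent to the new one
    obtain ⟨a0, ha0, h0⟩ := hA
    -- it suffices to find a contact with an old site
    have fin : ∀ a ∈ SS w (s + 1), ∀ b ∈ SS w s, a = b + v → ∃ a ∈ SS w (s + 1), ∃ b ∈ SS w (s + 1),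
        a = b + v ∧ (∀ c ∈ SS w s, v ∣ a - c → a = c + v) ∧ ∀ c ∈ SS w s, v ∣ b - c → b = c := by
      intro a ha b hb e
      refine ⟨a, ha, b, SS_mono (by omega) hb, e, ?_, fun c hc h => U b hb c hc h⟩
      intro c hc h
      have : b = c := by
        refine U b hb c hc ?_
        have e2 : b - c = (a - c) - v := by rw [e]; ring
        rw [e2]
        exact dvd_sub h dvd_rfl
      rw [e, this]
    rcases cas b hb with hb' | ⟨k, rfl⟩
    · exact fin a ha b hb' hab
    · rcases cas a ha with ha' | ⟨m, rfl⟩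
      · -- reverse the roles
        refine fin (II ^ 2 * (II ^ k * z)) (SS_rot hb 2) (II ^ 2 * a) (SS_rot ha' 2) ?_
        rw [hab, II_sq]
        ring
      · -- both new
        have h1 : v ∣ II ^ m * a0 - II ^ k * a0 := by
          have e2 : II ^ m * a0 - II ^ k * a0 = (II ^ m * z - II ^ k * z) - II ^ m * (z - a0) +
              II ^ k * (z - a0) := by ring
          rw [e2]
          refine dvd_add (dvd_sub ?_ (h0.mul_left _)) (h0.mul_left _)
          rw [hab]
          simp
        have h2 := U _ (SS_rot ha0 m) _ (SS_rot ha0 k) h1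
        have h3 : (II ^ m - II ^ k) * a0 = 0 := by rw [sub_mul, h2]; ring
        rcases mul_eq_zero.1 h3 with h4 | h4
        · exfalso
          apply hv
          have e3 : v = (II ^ m - II ^ k) * z := by rw [sub_mul, hab]; ring
          rw [e3, h4, zero_mul]
        · -- the new site is a multiple of `v`
          rw [h4, sub_zero] at h0
          obtain ⟨u, hu⟩ := h0
          have e3 : v = v * (u * (II ^ m - II ^ k)) := by
            calc v = II ^ m * z - II ^ k * z := by rw [hab]; ring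
              _ = _ := by rw [hu]; ring
          have e4 : u * (II ^ m - II ^ k) = 1 := by
            have : v * (u * (II ^ m - II ^ k)) = v * 1 := by rw [← e3, mul_one]
            exact mul_left_cancel₀ hv this
          obtain ⟨q, hq⟩ := unit_pow e4
          refine fin (II ^ q * z) (newS q) 0 ?_ ?_
          · have := ha0
            rwa [h4] at this
          · rw [hu, zero_add]
            calc II ^ q * (v * u) = v * (II ^ q * u) := by ring
              _ = v := by rw [hq, mul_one]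
  · push Not at hA
    have hnew : ∀ p ∈ SS w (s + 1), p ∉ SS w s → ∀ c ∈ SS w s, ¬ v ∣ p - c := by
      intro p hp hps c hc h
      rcases cas p hp with h1 | ⟨k, rfl⟩
      · exact hps h1
      · refine hA _ (SS_rot hc (3 * k)) ?_
        rw [hfwd]
        exact h.mul_left _
    have hns : ∀ k, II ^ k * z ∉ SS w s := by
      intro k h
      apply hzn
      have := SS_rot h (3 * k)
      rwa [← mul_assoc, II_inv, one_mul] at this
    have ha' : a ∉ SS w s := by
      intro ha'
      rcases cas b hb with hb' | ⟨k, rfl⟩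
      · have := U a ha' b hb' (by rw [hab]; simp)
        rw [hab] at this
        exact hv (by simpa using this)
      · refine hnew _ hb (hns k) a ha' ?_
        rw [hab]
        simp
    have hb' : b ∉ SS w s := by
      intro hb'
      refine hnew a ha ha' b hb' ?_
      rw [hab]
      simp
    exact ⟨a, ha, b, hb, hab, fun c hc h => absurd h (hnew a ha ha' c hc),
      fun c hc h => absurd h (hnew b hb hb' c hc)⟩

end Pool.Agent.H986.DS
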