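import Pool.Agent.H986.DS.Net

/-!
A rotationally symmetric walk which meets a translate by a multiple of `v` meets its translate by
`v`.
-/

set_option autoImplicit false

namespace Pool.Agent.H986.DS

open Pool.Agent.H986.MT

theorem II_sq : II ^ 2 = -1 := by
  rw [sq]
  apply Zsqrtd.ext <;> simp [II]

theorem II_four : II ^ 4 = 1 := by
  have : II ^ 4 = (II ^ 2) ^ 2 := by ring
  rw [this, II_sq]
  ring

theorem II_mod (k : ℕ) : II ^ k = II ^ (k % 4) := by
  conv_lhs => rw [← Nat.div_add_mod k 4, pow_add, pow_mul, II_four, one_pow, one_mul]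

theorem II_inv (k : ℕ) : II ^ (3 * k) * II ^ k = 1 := by
  rw [← pow_add, show 3 * k + k = 4 * k by ring, pow_mul, II_four, one_pow]

theorem SS_rot {w : ℕ → GaussianInt} {t : ℕ} {p : GaussianInt} (h : p ∈ SS w t) (k : ℕ) :
    II ^ k * p ∈ SS w t := by
  obtain ⟨m, j, hj, rfl⟩ := h
  exact ⟨k + m, j, hj, by rw [pow_add]; ring⟩

theorem SS_mono {w : ℕ → GaussianInt} {t t' : ℕ} (h : t ≤ t') : SS w t ⊆ SS w t' := by
  rintro p ⟨m, j, hj, rfl⟩
  exact ⟨m, j, hj.trans h, rfl⟩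

theorem SS_succ {w : ℕ → GaussianInt} {s : ℕ} {p : GaussianInt} (h : p ∈ SS w (s + 1)) :
    p ∈ SS w s ∨ ∃ k, p = II ^ k * w (s + 1) := by
  obtain ⟨m, j, hj, rfl⟩ := h
  rcases Nat.lt_or_ge j (s + 1) with h1 | h1
  · exact Or.inl ⟨m, j, by omega, rfl⟩
  · have : j = s + 1 := by omega
    subst this
    exact Or.inr ⟨m, rfl⟩

theorem SS_self (w : ℕ → GaussianInt) (t : ℕ) : w t ∈ SS w t := ⟨0, t, le_rfl, by simp⟩

theorem unit_pow {u u' : GaussianInt} (h : u * u' = 1) : ∃ m, II ^ m * u = 1 := by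
  have hu : IsUnit u := IsUnit.of_mul_eq_one u' h
  have h1 := Zsqrtd.norm_eq_one_iff.2 hu
  have h2 : u.norm = u.re * u.re + u.im * u.im := by
    rw [Zsqrtd.norm_def]
    ring
  have h3 : 0 ≤ u.norm := by
    rw [h2]
    exact add_nonneg (mul_self_nonneg _) (mul_self_nonneg _)
  have h4 : u.re * u.re + u.im * u.im = 1 := by omega
  have h5 : u.re ≤ 1 := by nlinarith
  have h6 : -1 ≤ u.re := by nlinarith
  have h7 : u.im ≤ 1 := by nlinarith
  have h8 : -1 ≤ u.im := by nlinarith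
  obtain ⟨a, b⟩ := u
  simp only at h4 h5 h6 h7 h8
  interval_cases a <;> interval_cases b <;> first | (exfalso; omega) | skip
  · exact ⟨2, by rw [II_sq]; apply Zsqrtd.ext <;> simp⟩
  · exact ⟨1, by rw [pow_one]; apply Zsqrtd.ext <;> simp [II]⟩
  · refine ⟨3, ?_⟩
    rw [show 3 = 2 + 1 from rfl, pow_add, II_sq, pow_one]
    apply Zsqrtd.ext <;> simp [II]
  · exact ⟨0, by rw [pow_zero]; apply Zsqrtd.ext <;> simp⟩

theorem II_ne : (1 : GaussianInt) - II ≠ 0 := by
  intro h
  have := congrArg Zsqrtd.re h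
  simp [II] at this

/-- The growing argument. -/
theorem grow {N : ℕ} {w : ℕ → GaussianInt} (w0 : w 0 = 0)
    (hw : ∀ k < N, Near (pr (w k)) (pr (w (k + 1)))) {v : GaussianInt} (hv : v ≠ 0)
    (hN : ∃ d, d ≠ 0 ∧ v ∣ d ∧ ∃ a ∈ SS w N, ∃ b ∈ SS w N, a = b + d) :
    ∃ a ∈ SS w N, ∃ b ∈ SS w N, a = b + v := by
  classical
  obtain ⟨t, ht, hmin, htN⟩ : ∃ t, (∃ d, d ≠ 0 ∧ v ∣ d ∧ ∃ a ∈ SS w t, ∃ b ∈ SS w t, a = b + d) ∧
      (∀ s < t, ¬ ∃ d, d ≠ 0 ∧ v ∣ d ∧ ∃ a ∈ SS w s, ∃ b ∈ SS w s, a = b + d) ∧ t ≤ N := by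
    let Q : ℕ → Prop := fun t => ∃ d, d ≠ 0 ∧ v ∣ d ∧ ∃ a ∈ SS w t, ∃ b ∈ SS w t, a = b + d
    have hQ : ∃ t, Q t := ⟨N, hN⟩
    exact ⟨Nat.find hQ, Nat.find_spec hQ, fun s hs => Nat.find_min hQ hs, Nat.find_min' hQ hN⟩
  rcases t with _ | s
  · exfalso
    obtain ⟨d, hd, _, a, ⟨k, j, hj, rfl⟩, b, ⟨k', j', hj', rfl⟩, e⟩ := ht
    have h1 : j = 0 := by omega
    have h2 : j' = 0 := by omega
    subst h1 h2
    rw [w0] at e
    simp at e
    exact hd e.symm
  have hmin' := hmin s (by omega)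
  obtain ⟨z, hz⟩ : ∃ z, z = w (s + 1) := ⟨_, rfl⟩
  have hzS : z ∈ SS w (s + 1) := hz ▸ SS_self w (s + 1)
  have U : ∀ a ∈ SS w s, ∀ b ∈ SS w s, v ∣ a - b → a = b := by
    intro a ha b hb h
    by_contra hne
    exact hmin' ⟨a - b, sub_ne_zero.2 hne, h, a, ha, b, hb, by ring⟩
  have cas : ∀ p ∈ SS w (s + 1), p ∈ SS w s ∨ ∃ k, p = II ^ k * z := by
    intro p hp
    rw [hz]
    exact SS_succ hp
  -- reduction to differences with the new site
  have red : ∀ a ∈ SS w (s + 1), ∀ b ∈ SS w (s + 1), v ∣ a - b → a ≠ b →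
      ∃ b' ∈ SS w (s + 1), v ∣ z - b' ∧ z ≠ b' ∧ ∀ l, l ∣ z - b' → l ∣ a - b := by
    intro a ha b hb h hne
    have half : ∀ k : ℕ, ∀ b ∈ SS w (s + 1), v ∣ II ^ k * z - b → II ^ k * z ≠ b →
        ∃ b' ∈ SS w (s + 1), v ∣ z - b' ∧ z ≠ b' ∧ ∀ l, l ∣ z - b' → l ∣ II ^ k * z - b := by
      intro k b hb h hne
      refine ⟨II ^ (3 * k) * b, SS_rot hb _, ?_, ?_, ?_⟩
      · have e : z - II ^ (3 * k) * b = II ^ (3 * k) * (II ^ k * z - b) := by
          rw [mul_sub, ← mul_assoc, II_inv, one_mul]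
        rw [e]
        exact h.mul_left _
      · intro e
        apply hne
        rw [e, ← mul_assoc, mul_comm (II ^ k), II_inv, one_mul]
      · intro l hl
        have e : II ^ k * z - b = II ^ k * (z - II ^ (3 * k) * b) := by
          rw [mul_sub, ← mul_assoc, mul_comm (II ^ k) (II ^ (3 * k)), II_inv, one_mul]
        rw [e]
        exact hl.mul_left _
    rcases cas a ha with h1 | ⟨k, rfl⟩
    · rcases cas b hb with h2 | ⟨k, rfl⟩
      · exact absurd (U a h1 b h2 h) hne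
      · have h' : v ∣ II ^ k * z - a := by
          rw [← neg_sub]
          exact (dvd_neg).2 h
        obtain ⟨b', hb', c1, c2, c3⟩ := half k a ha h' hne.symm
        refine ⟨b', hb', c1, c2, fun l hl => ?_⟩
        rw [← neg_sub]
        exact (dvd_neg).2 (c3 l hl)
    · exact half k b hb h hne
  -- the generator
  obtain ⟨l, hl0, hvl, hl, hgen⟩ : ∃ l, l ≠ 0 ∧ v ∣ l ∧
      (∃ a ∈ SS w (s + 1), ∃ b ∈ SS w (s + 1), a = b + l) ∧
      ∀ b ∈ SS w (s + 1), v ∣ z - b → z ≠ b → l ∣ z - b := by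
    by_cases hA : ∃ a0 ∈ SS w s, v ∣ z - a0 ∧ z ≠ a0
    · obtain ⟨a0, ha0, h1, h2⟩ := hA
      refine ⟨z - a0, sub_ne_zero.2 h2, h1, ⟨z, hzS, a0, SS_mono (by omega) ha0, by ring⟩, ?_⟩
      intro b hb h3 h4
      rcases cas b hb with h5 | ⟨k, rfl⟩
      · have h6 : b = a0 := by
          refine U b h5 a0 ha0 ?_
          have : b - a0 = (z - a0) - (z - b) := by ring
          rw [this]
          exact dvd_sub h1 h3
        rw [h6]
      · have h6 : II ^ k * a0 = a0 := by
          refine U _ (SS_rot ha0 k) a0 ha0 ?_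
          have : II ^ k * a0 - a0 = (z - a0) - (z - II ^ k * z) - II ^ k * (z - a0) := by ring
          rw [this]
          exact dvd_sub (dvd_sub h1 h3) (h1.mul_left _)
        have h7 : (II ^ k - 1) * a0 = 0 := by rw [sub_mul, h6]; ring
        rcases mul_eq_zero.1 h7 with h8 | h8
        · exfalso
          apply h4
          rw [sub_eq_zero.1 h8, one_mul]
        · rw [h8, sub_zero]
          exact ⟨1 - II ^ k, by ring⟩
    · push Not at hA
      have hB : ∀ b ∈ SS w (s + 1), v ∣ z - b → z ≠ b → ∃ k < 4, k ≠ 0 ∧ b = II ^ k * z := by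
        intro b hb h3 h4
        rcases cas b hb with h5 | ⟨k, rfl⟩
        · exact absurd (hA b h5 h3) h4
        · refine ⟨k % 4, Nat.mod_lt _ (by norm_num), ?_, by rw [← II_mod]⟩
          intro h0
          apply h4
          rw [II_mod, h0, pow_zero, one_mul]
      obtain ⟨d, hd0, hvd, a, ha, b, hb, hab⟩ := ht
      obtain ⟨b', hb', c1, c2, _⟩ := red a ha b hb (by rw [hab]; simpa using hvd)
        (fun h => hd0 (by rw [h] at hab; simpa using hab))
      have hz0 : z ≠ 0 := by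
        rintro rfl
        obtain ⟨k, _, _, e⟩ := hB b' hb' c1 c2
        apply c2
        rw [e, mul_zero]
      by_cases h1 : v ∣ (1 - II) * z
      · refine ⟨(1 - II) * z, mul_ne_zero II_ne hz0, h1,
          ⟨z, hzS, II ^ 1 * z, SS_rot hzS 1, by ring⟩, ?_⟩
        intro b hb h3 h4
        obtain ⟨k, _, _, rfl⟩ := hB b hb h3 h4
        have e : z - II ^ k * z = (1 - II ^ k) * z := by ring
        rw [e]
        have := sub_dvd_pow_sub_pow (1 : GaussianInt) II k
        rw [one_pow] at this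
        exact mul_dvd_mul_right this z
      · have two : ∀ b ∈ SS w (s + 1), v ∣ z - b → z ≠ b → z - b = 2 * z := by
          intro b hb h3 h4
          obtain ⟨k, hk4, hk0, rfl⟩ := hB b hb h3 h4
          have hk : k = 1 ∨ k = 2 ∨ k = 3 := by omega
          rcases hk with rfl | rfl | rfl
          · exfalso
            apply h1
            have e : (1 - II) * z = z - II ^ 1 * z := by ring
            rw [e]
            exact h3
          · rw [II_sq]
            ring
          · exfalso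
            apply h1
            have e : (1 - II) * z = -(II * (z - II ^ 3 * z)) + (1 - II ^ 4) * z := by ring
            rw [e, II_four, sub_self, zero_mul, add_zero]
            exact (dvd_neg).2 (h3.mul_left _)
        have e := two b' hb' c1 c2
        refine ⟨2 * z, mul_ne_zero (by
          intro h
          have := congrArg Zsqrtd.re h
          simp at this) hz0, e ▸ c1, ⟨z, hzS, II ^ 2 * z, SS_rot hzS 2, by rw [II_sq]; ring⟩, ?_⟩
        intro b hb h3 h4
        rw [two b hb h3 h4]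
  have hall : ∀ a ∈ SS w (s + 1), ∀ b ∈ SS w (s + 1), v ∣ a - b → l ∣ a - b := by
    intro a ha b hb h
    by_cases hne : a = b
    · rw [hne, sub_self]
      exact dvd_zero _
    · obtain ⟨b', hb', c1, c2, c3⟩ := red a ha b hb h hne
      exact c3 l (hgen b' hb' c1 c2)
  obtain ⟨a, ha, b, hb, hab⟩ := hl
  obtain ⟨a', ha', b', hb', h1⟩ := net w0 (fun k hk => hw k (by omega)) hl0 ha hb hab v
  have h2 : v ∣ a' - b' := by
    have h3 : v ∣ a' - b' - v := hvl.trans h1
    have e : a' - b' = (a' - b' - v) + v := by ring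
    rw [e]
    exact dvd_add h3 dvd_rfl
  have h3 : l ∣ v := by
    have h4 := hall a' ha' b' hb' h2
    have e : v = (a' - b') - (a' - b' - v) := by ring
    rw [e]
    exact dvd_sub h4 h1
  obtain ⟨u, hu⟩ := hvl
  obtain ⟨u', hu'⟩ := h3
  have h4 : u * u' = 1 := by
    have : v * (u * u') = v * 1 := by
      rw [← mul_assoc, ← hu, ← hu', mul_one]
    exact mul_left_cancel₀ hv this
  obtain ⟨m, hm⟩ := unit_pow h4
  refine ⟨II ^ m * a, SS_mono htN (SS_rot ha m), II ^ m * b, SS_mono htN (SS_rot hb m), ?_⟩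
  rw [hab, hu, mul_add]
  congr 1
  calc II ^ m * (v * u) = v * (II ^ m * u) := by ring
    _ = v := by rw [hm, mul_one]

end Pool.Agent.H986.DS
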