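import Pool.Agent.H986.DS.Pig

/-!
The deterministic theorems.
-/

set_option autoImplicit false

namespace Pool.Agent.H986.DS

open Pool.Agent.H986.MT Complex

/-- a self-avoiding walk with at least `norm v` steps meets its translate by `v`, up to rotations -/
theorem shifted {v : GaussianInt} (hv : v ≠ 0) {N : ℕ} (hN : v.norm ≤ N) {w : ℕ → GaussianInt}
    (w0 : w 0 = 0) (hw : ∀ k < N, Near (pr (w k)) (pr (w (k + 1))))
    (inj : ∀ i ≤ N, ∀ j ≤ N, w i = w j → i = j) : ∃ a ∈ SS w N, ∃ b ∈ SS w N, a = b + v := by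
  obtain ⟨i, hi, j, hj, hij, h⟩ := pig hv hN inj
  refine grow w0 hw hv ⟨w i - w j, sub_ne_zero.2 fun e => hij (inj i hi j hj e), h, w i,
    ⟨0, i, hi, by simp⟩, w j, ⟨0, j, hj, by simp⟩, by ring⟩

/-- the two shifted copies -/
def FF (w : ℕ → GaussianInt) (t : ℕ) (x : GaussianInt) : Set ℂ :=
  {z | ∃ y ∈ A (cu w t) t, z = y + GaussianInt.toComplex x ∨ z = y - GaussianInt.toComplex x}

theorem FF_neg {w : ℕ → GaussianInt} {t : ℕ} {x : GaussianInt} {z : ℂ} (h : z ∈ FF w t x) :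
    -z ∈ FF w t x := by
  obtain ⟨y, hy, rfl | rfl⟩ := h
  · exact ⟨-y, A_neg hy, Or.inr (by ring)⟩
  · exact ⟨-y, A_neg hy, Or.inl (by ring)⟩

theorem FF_joined {w : ℕ → GaussianInt} (w0 : w 0 = 0) {t : ℕ} {x : GaussianInt}
    (h : ∃ a ∈ SS w t, ∃ b ∈ SS w t, a = b + 2 * x) :
    JoinedIn (FF w t x) (GaussianInt.toComplex x) (-GaussianInt.toComplex x) := by
  obtain ⟨a, ha, b, hb, e⟩ := h
  have j1 := joined_map (G := FF w t x) (fun y => y + GaussianInt.toComplex x) (by fun_prop)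
    (A_joined (cu_cont w t) (cu_zero w0 t) (mem_A hb)) (fun z hz => ⟨z, hz, Or.inl rfl⟩)
  have j2 := joined_map (G := FF w t x) (fun y => y - GaussianInt.toComplex x) (by fun_prop)
    (A_joined (cu_cont w t) (cu_zero w0 t) (mem_A ha)) (fun z hz => ⟨z, hz, Or.inr rfl⟩)
  have e2 : GaussianInt.toComplex a - GaussianInt.toComplex x =
      GaussianInt.toComplex b + GaussianInt.toComplex x := by
    rw [e, map_add, map_mul, map_ofNat]
    ring
  simp only [zero_add, zero_sub] at j1 j2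
  rw [e2] at j2
  exact j1.trans j2.symm

/-- common points with a curve which is not rotated -/
theorem common1 {w w' : ℕ → GaussianInt} {t t' : ℕ}
    (hw : ∀ k < t, Near (pr (w k)) (pr (w (k + 1))))
    (hw' : ∀ k < t', Near (pr (w' k)) (pr (w' (k + 1)))) {y : ℂ} {u : ℝ}
    (hy : y ∈ A (cu w t) t) (h0 : 0 ≤ u) (h1 : u ≤ t') {c c' : GaussianInt}
    (e : y + GaussianInt.toComplex c = cu w' t' u + GaussianInt.toComplex c') :
    ∃ a ∈ SS w t, ∃ j ≤ t', a + c = w' j + c' := by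
  obtain ⟨k, s, hs, rfl⟩ := hy
  unfold cu at e
  rw [← lin_rot, ← pt_pr, ← pt_pr, ← lin_shift, ← lin_shift] at e
  obtain ⟨i, hi, j, hj, _, _, h⟩ := meet0 (v := fun j => rt^[k] (pr (w j)) + pr c)
    (w := fun j => pr (w' j) + pr c')
    (fun j hj => near_add (near_rt_iter k (hw j hj)) _)
    (fun j hj => near_add (hw' j hj) _) hs.1 hs.2 h0 h1 e
  refine ⟨II ^ k * w i, ⟨k, i, hi, rfl⟩, j, hj, ?_⟩
  apply pr_inj
  rw [pr_add, pr_add, pr_pow]
  exact h

/-- the size of the walk -/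
theorem cu_bound {w : ℕ → GaussianInt} (w0 : w 0 = 0) {t : ℕ}
    (hw : ∀ k < t, Near (pr (w k)) (pr (w (k + 1)))) {y : ℂ} (hy : y ∈ A (cu w t) t) :
    ‖y‖ ≤ t := by
  have h1 : ∀ k ≤ t, ‖pt (pr (w k))‖ ≤ k := by
    intro k
    induction k with
    | zero =>
      intro _
      rw [w0, pt_pr, map_zero]
      simp
    | succ k ih =>
      intro hk
      have h2 := near_norm (hw k hk)
      have h3 := ih (by omega)
      push_cast
      linarith
  obtain ⟨k, s, hs, rfl⟩ := hy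
  rw [norm_mul, norm_pow, norm_I, one_pow, one_mul]
  unfold cu
  rcases eq_or_lt_of_le hs.1 with h2 | h2
  · rw [← h2, lin_zero]
    refine (h1 0 (Nat.zero_le _)).trans ?_
    exact_mod_cast Nat.zero_le _
  · obtain ⟨j, _, b2, b3, b4⟩ := block (i₀ := 0) (by simpa using h2) hs.2
    rw [lin_eq b2 _ b3.le b4]
    have e : pt (pr (w j)) + ((s - j : ℝ) : ℂ) * (pt (pr (w (j + 1))) - pt (pr (w j))) =
        ((1 - (s - j) : ℝ) : ℂ) * pt (pr (w j)) + ((s - j : ℝ) : ℂ) * pt (pr (w (j + 1))) := by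
      push_cast
      ring
    rw [e]
    have h3 := h1 j (by omega)
    have h4 := h1 (j + 1) b2
    have h5 : ((j + 1 : ℕ) : ℝ) ≤ t := by exact_mod_cast b2
    have h6 : (j : ℝ) ≤ t := by exact_mod_cast b2.le
    refine (norm_add_le _ _).trans ?_
    rw [norm_mul, norm_mul, Complex.norm_real, Complex.norm_real,
      Real.norm_of_nonneg (show 0 ≤ 1 - (s - j) by linarith),
      Real.norm_of_nonneg (show 0 ≤ s - j by linarith)]
    calc (1 - (s - j)) * ‖pt (pr (w j))‖ + (s - j) * ‖pt (pr (w (j + 1)))‖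
        ≤ (1 - (s - j)) * t + (s - j) * t := by
          gcongr
          · linarith
          · linarith
          · linarith
      _ = t := by ring

/-- **A walk and a path.** -/
theorem det_path {x : GaussianInt} {N l : ℕ} {w u : ℕ → GaussianInt}
    (w0 : w 0 = 0) (hw : ∀ k < N, Near (pr (w k)) (pr (w (k + 1))))
    (hT : ∃ a ∈ SS w N, ∃ b ∈ SS w N, a = b + 2 * x)
    (u0 : u 0 = 0) (hu : ∀ k < l, Near (pr (u k)) (pr (u (k + 1))))
    (far : ∃ j ≤ l, (N : ℝ) + ‖GaussianInt.toComplex x‖ < ‖pt (pr (u j))‖) :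
    ∃ a ∈ SS w N, ∃ j ≤ l, a = u j + x ∨ a = u j - x := by
  obtain ⟨j, hj, hfar⟩ := far
  have hB := joined_curve (cu_cont u l) (Nat.cast_nonneg (α := ℝ) j)
  rw [cu_zero u0] at hB
  have e1 : cu u l j = pt (pr (u j)) := by
    unfold cu
    rw [lin_nat hj]
  rw [e1] at hB
  obtain ⟨z, hz, hz'⟩ := sepJ (FF_joined w0 hT) (M := N + ‖GaussianInt.toComplex x‖) (by
    rintro z ⟨y, hy, rfl | rfl⟩
    · exact (norm_add_le _ _).trans (by linarith [cu_bound w0 hw hy])
    · exact (norm_sub_le _ _).trans (by linarith [cu_bound w0 hw hy])) hB hfar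
  obtain ⟨z, hz, t, ht, e⟩ : ∃ z ∈ FF w N x, ∃ t ∈ Set.Icc (0 : ℝ) j, z = cu u l t := by
    rcases hz' with ⟨t, ht, e⟩ | ⟨t, ht, e⟩
    · exact ⟨z, hz, t, ht, e.symm⟩
    · exact ⟨-z, FF_neg hz, t, ht, e.symm⟩
  have htl : t ≤ l := ht.2.trans (by exact_mod_cast hj)
  obtain ⟨y, hy, h | h⟩ := hz
  · obtain ⟨a, ha, i, hi, h2⟩ := common1 hw hu hy ht.1 htl (c := x) (c' := 0) (by
      rw [map_zero, add_zero, ← e, h])
    exact ⟨a, ha, i, hi, Or.inr (by rw [add_zero] at h2; rw [← h2]; ring)⟩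
  · obtain ⟨a, ha, i, hi, h2⟩ := common1 hw hu hy ht.1 htl (c := 0) (c' := x) (by
      rw [map_zero, add_zero, ← e, h]; ring)
    exact ⟨a, ha, i, hi, Or.inl (by rw [add_zero] at h2; exact h2)⟩

/-- the height in the direction `I x` -/
noncomputable def ht (X y : ℂ) : ℝ := X.re * y.im - X.im * y.re

theorem ht_cont (X : ℂ) : Continuous (ht X) := by
  unfold ht
  fun_prop

/-- the other walk does not reach the height of `w` -/
theorem lower {x : GaussianInt} (hx : x ≠ 0) {N M : ℕ} {w w' : ℕ → GaussianInt}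
    (w0 : w 0 = 0) (hw : ∀ k < N, Near (pr (w k)) (pr (w (k + 1))))
    (hT : ∃ a ∈ SS w N, ∃ b ∈ SS w N, a = b + 2 * x)
    (w0' : w' 0 = 0) (hw' : ∀ k < M, Near (pr (w' k)) (pr (w' (k + 1))))
    (hav : ∀ a ∈ SS w N, ∀ b ∈ SS w' M, a ≠ b + x) {y' : ℂ} (hy' : y' ∈ A (cu w' M) M) :
    ∃ y ∈ A (cu w N) N, ht (GaussianInt.toComplex x) y' < ht (GaussianInt.toComplex x) y := by
  by_contra hcon
  push Not at hcon
  obtain ⟨X, hX⟩ : ∃ X, X = GaussianInt.toComplex x := ⟨_, rfl⟩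
  have hX0 : X ≠ 0 := by
    rw [hX]
    exact fun h => hx (GaussianInt.toComplex_eq_zero.1 h)
  have hXn : 0 < ‖X‖ := norm_pos_iff.2 hX0
  rw [← hX] at hcon
  obtain ⟨T, hT'⟩ : ∃ T, T = (N + ‖X‖ + ‖y'‖ + 1) / ‖X‖ := ⟨_, rfl⟩
  have hT0 : 0 ≤ T := by rw [hT']; positivity
  let B : Set ℂ := A (cu w' M) M ∪ {z | ∃ t : ℝ, 0 ≤ t ∧ z = y' + t * (I * X)}
  have hB : JoinedIn B 0 (y' + T * (I * X)) := by
    have j1 : JoinedIn B 0 y' := (A_joined (cu_cont w' M) (cu_zero w0' M) hy').mono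
      Set.subset_union_left
    refine j1.trans ?_
    refine JoinedIn.ofLine (f := fun u : ℝ => y' + ((u * T : ℝ) : ℂ) * (I * X)) (by fun_prop)
      (by simp) (by simp) ?_
    rintro _ ⟨u, hu, rfl⟩
    exact Or.inr ⟨u * T, mul_nonneg hu.1 hT0, rfl⟩
  have hfar : (N : ℝ) + ‖X‖ < ‖y' + T * (I * X)‖ := by
    have h1 : ‖(T : ℂ) * (I * X)‖ = N + ‖X‖ + ‖y'‖ + 1 := by
      rw [norm_mul, norm_mul, norm_I, one_mul, Complex.norm_real, Real.norm_of_nonneg hT0, hT']
      field_simp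
    have h2 := norm_sub_norm_le ((T : ℂ) * (I * X)) (-y')
    rw [norm_neg, sub_neg_eq_add, add_comm _ y', h1] at h2
    linarith
  have hj := FF_joined w0 hT
  obtain ⟨z, hz, hz'⟩ := sepJ hj (M := N + ‖X‖) (by
    rintro z ⟨y, hy, rfl | rfl⟩
    · rw [hX]
      exact (norm_add_le _ _).trans (by linarith [cu_bound w0 hw hy])
    · rw [hX]
      exact (norm_sub_le _ _).trans (by linarith [cu_bound w0 hw hy])) hB hfar
  obtain ⟨z, hz, hzB⟩ : ∃ z ∈ FF w N x, z ∈ B := by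
    rcases hz' with h | h
    · exact ⟨z, hz, h⟩
    · exact ⟨-z, FF_neg hz, h⟩
  have av2 : ∀ a ∈ SS w N, ∀ b ∈ SS w' M, a ≠ b - x := by
    intro a ha b hb e
    refine hav _ (SS_rot ha 2) _ (SS_rot hb 2) ?_
    rw [II_sq, e]
    ring
  have noA : z ∉ A (cu w' M) M := by
    intro h
    obtain ⟨y, hy, e | e⟩ := hz
    · obtain ⟨a, ha, b, hb, h2⟩ := common hw hw' hy h (c := x) (c' := 0) (by
        rw [map_zero, add_zero, e])
      exact av2 a ha b hb (by rw [add_zero] at h2; rw [← h2]; ring)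
    · obtain ⟨a, ha, b, hb, h2⟩ := common hw hw' hy h (c := 0) (c' := x) (by
        rw [map_zero, add_zero, e]; ring)
      exact hav a ha b hb (by rw [add_zero] at h2; exact h2)
  rcases hzB with h | ⟨t, ht0, h⟩
  · exact noA h
  · have key : ht X z = ht X y' + t * (X.re * X.re + X.im * X.im) := by
      rw [h]
      unfold ht
      simp
      ring
    have key2 : ∃ y ∈ A (cu w N) N, ht X z = ht X y := by
      obtain ⟨y, hy, e | e⟩ := hz
      · refine ⟨y, hy, ?_⟩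
        rw [e, ← hX]
        unfold ht
        simp
        ring
      · refine ⟨y, hy, ?_⟩
        rw [e, ← hX]
        unfold ht
        simp
        ring
    obtain ⟨y, hy, e⟩ := key2
    have h1 := hcon y hy
    have h2 : 0 < X.re * X.re + X.im * X.im := by
      have := Complex.normSq_pos.2 hX0
      rwa [Complex.normSq_apply] at this
    have h3 : t = 0 := by
      by_contra h4
      have h5 : 0 < t := lt_of_le_of_ne ht0 (Ne.symm h4)
      have := mul_pos h5 h2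
      linarith
    rw [h3] at h
    simp only [ofReal_zero, zero_mul, add_zero] at h
    rw [h] at noA
    exact noA hy'

/-- **Two walks.** One of the sixteen rotated pairs meets. -/
theorem det_walks {x : GaussianInt} (hx : x ≠ 0) {N M : ℕ} {w w' : ℕ → GaussianInt}
    (w0 : w 0 = 0) (hw : ∀ k < N, Near (pr (w k)) (pr (w (k + 1))))
    (hT : ∃ a ∈ SS w N, ∃ b ∈ SS w N, a = b + 2 * x)
    (w0' : w' 0 = 0) (hw' : ∀ k < M, Near (pr (w' k)) (pr (w' (k + 1))))
    (hT' : ∃ a ∈ SS w' M, ∃ b ∈ SS w' M, a = b + 2 * x) :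
    ∃ a ∈ SS w N, ∃ b ∈ SS w' M, a = b + x := by
  by_contra hcon
  push Not at hcon
  have hav : ∀ a ∈ SS w N, ∀ b ∈ SS w' M, a ≠ b + x := hcon
  have hav' : ∀ b ∈ SS w' M, ∀ a ∈ SS w N, b ≠ a + x := by
    intro b hb a ha e
    refine hav _ (SS_rot ha 2) _ (SS_rot hb 2) ?_
    rw [II_sq, e]
    ring
  have hne : (A (cu w N) N).Nonempty := ⟨_, mem_A (SS_self w N)⟩
  obtain ⟨y0, hy0, hmax⟩ := (A_compact (cu_cont w N) N).exists_isMaxOn hne
    (ht_cont (GaussianInt.toComplex x)).continuousOn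
  obtain ⟨y1, hy1, h1⟩ := lower hx w0' hw' hT' w0 hw hav' hy0
  obtain ⟨y2, hy2, h2⟩ := lower hx w0 hw hT w0' hw' hav hy1
  have h3 : ht (GaussianInt.toComplex x) y2 ≤ ht (GaussianInt.toComplex x) y0 := hmax hy2
  linarith

end Pool.Agent.H986.DS
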