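import Pool.Agent.H986.DS.Cross
import Pool.Agent.H986.MT.Lay

/-!
A periodic net of rotated copies of a lattice path meets all its translates.
-/

set_option autoImplicit false

namespace Pool.Agent.H986.DS

open Pool.Agent.H986.MT Complex

/-- the imaginary unit -/
def II : GaussianInt := ⟨0, 1⟩

/-- the site -/
def pr (g : GaussianInt) : ℤ × ℤ := (g.re, g.im)

theorem pr_inj {g h : GaussianInt} (e : pr g = pr h) : g = h := by
  unfold pr at e
  simp only [Prod.mk.injEq] at e
  exact Zsqrtd.ext e.1 e.2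

theorem pr_add (g h : GaussianInt) : pr (g + h) = pr g + pr h := by
  simp [pr]

theorem pr_II (g : GaussianInt) : pr (II * g) = rt (pr g) := by
  simp [pr, rt, II]

theorem pr_pow (k : ℕ) (g : GaussianInt) : pr (II ^ k * g) = rt^[k] (pr g) := by
  induction k with
  | zero => simp
  | succ k ih =>
    rw [Function.iterate_succ_apply', ← ih, ← pr_II]
    congr 1
    ring

theorem pt_pr (g : GaussianInt) : pt (pr g) = GaussianInt.toComplex g := by
  rw [GaussianInt.toComplex_def]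
  rfl

theorem toC_II : GaussianInt.toComplex II = I := by
  rw [GaussianInt.toComplex_def]
  simp [II]

/-- the rotated sites of the walk up to the time `t` -/
def SS (w : ℕ → GaussianInt) (t : ℕ) : Set GaussianInt := {p | ∃ k j, j ≤ t ∧ p = II ^ k * w j}

/-- the curve -/
noncomputable def cu (w : ℕ → GaussianInt) (t : ℕ) : ℝ → ℂ := lin t (fun j => pt (pr (w j)))

theorem cu_cont (w : ℕ → GaussianInt) (t : ℕ) : Continuous (cu w t) := lin_cont _ _

theorem cu_zero {w : ℕ → GaussianInt} (w0 : w 0 = 0) (t : ℕ) : cu w t 0 = 0 := by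
  unfold cu
  rw [lin_zero, w0, pt_pr, map_zero]

theorem A_compact {γ : ℝ → ℂ} (hγ : Continuous γ) (T : ℝ) : IsCompact (A γ T) := by
  rw [A_eq]
  refine (Finset.range 4).isCompact_biUnion fun k _ => ?_
  exact isCompact_Icc.image (by fun_prop)

theorem mem_A {w : ℕ → GaussianInt} {t : ℕ} {a : GaussianInt} (h : a ∈ SS w t) :
    GaussianInt.toComplex a ∈ A (cu w t) t := by
  obtain ⟨k, j, hj, rfl⟩ := h
  refine ⟨k, j, ⟨Nat.cast_nonneg _, by exact_mod_cast hj⟩, ?_⟩
  unfold cu
  rw [lin_nat hj, pt_pr, map_mul, map_pow, toC_II]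

theorem mul_I {γ : ℝ → ℂ} {T : ℝ} {z : ℂ} (h : z ∈ A γ T) : I * z ∈ A γ T := by
  have := A_mul h 1
  rwa [pow_one] at this

/-- common points of the curves give common sites -/
theorem common {w w' : ℕ → GaussianInt} {t t' : ℕ}
    (hw : ∀ k < t, Near (pr (w k)) (pr (w (k + 1))))
    (hw' : ∀ k < t', Near (pr (w' k)) (pr (w' (k + 1)))) {y y' : ℂ} (hy : y ∈ A (cu w t) t)
    (hy' : y' ∈ A (cu w' t') t') {c c' : GaussianInt}
    (e : y + GaussianInt.toComplex c = y' + GaussianInt.toComplex c') :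
    ∃ a ∈ SS w t, ∃ b ∈ SS w' t', a + c = b + c' := by
  obtain ⟨k, s, hs, rfl⟩ := hy
  obtain ⟨l, u, hu, rfl⟩ := hy'
  unfold cu at e
  rw [← lin_rot, ← lin_rot, ← pt_pr, ← pt_pr, ← lin_shift, ← lin_shift] at e
  obtain ⟨i, hi, j, hj, _, _, h⟩ := meet0 (v := fun j => rt^[k] (pr (w j)) + pr c)
    (w := fun j => rt^[l] (pr (w' j)) + pr c')
    (fun j hj => near_add (near_rt_iter k (hw j hj)) _)
    (fun j hj => near_add (near_rt_iter l (hw' j hj)) _) hs.1 hs.2 hu.1 hu.2 e
  refine ⟨II ^ k * w i, ⟨k, i, hi, rfl⟩, II ^ l * w' j, ⟨l, j, hj, rfl⟩, ?_⟩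
  apply pr_inj
  rw [pr_add, pr_add, pr_pow, pr_pow]
  exact h

/-- The net. -/
theorem net {t : ℕ} {w : ℕ → GaussianInt} (w0 : w 0 = 0)
    (hw : ∀ k < t, Near (pr (w k)) (pr (w (k + 1)))) {l : GaussianInt} (hl : l ≠ 0)
    {a b : GaussianInt} (ha : a ∈ SS w t) (hb : b ∈ SS w t) (hab : a = b + l) (v : GaussianInt) :
    ∃ a ∈ SS w t, ∃ b ∈ SS w t, l ∣ a - b - v := by
  obtain ⟨Â, hÂ⟩ : ∃ B, B = A (cu w t) t := ⟨_, rfl⟩
  obtain ⟨L, hL⟩ : ∃ L, L = GaussianInt.toComplex l := ⟨_, rfl⟩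
  have hL0 : L ≠ 0 := by
    rw [hL]
    exact fun h => hl (GaussianInt.toComplex_eq_zero.1 h)
  obtain ⟨c, hc⟩ : ∃ c, c = GaussianInt.toComplex v / L := ⟨_, rfl⟩
  obtain ⟨r₀, hr₀⟩ := (A_compact (cu_cont w t) t).isBounded.exists_norm_le
  rw [← hÂ] at hr₀
  obtain ⟨r, hr⟩ : ∃ r, r = r₀ / ‖L‖ := ⟨_, rfl⟩
  have hLn : 0 < ‖L‖ := norm_pos_iff.2 hL0
  have hrb : ∀ y ∈ Â, ‖y / L‖ ≤ r := by
    intro y hy
    rw [norm_div, hr]
    exact div_le_div_of_nonneg_right (hr₀ y hy) hLn.le
  have hjoin : ∀ y ∈ Â, JoinedIn Â 0 y := by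
    intro y hy
    rw [hÂ] at hy ⊢
    exact A_joined (cu_cont w t) (cu_zero w0 t) hy
  have hrot : ∀ y ∈ Â, I * y ∈ Â := by
    intro y hy
    rw [hÂ] at hy ⊢
    exact mul_I hy
  have hα : GaussianInt.toComplex a ∈ Â := by rw [hÂ]; exact mem_A ha
  have hβ : GaussianInt.toComplex b ∈ Â := by rw [hÂ]; exact mem_A hb
  have hαβ : GaussianInt.toComplex a = GaussianInt.toComplex b + L := by rw [hab, map_add, hL]
  obtain ⟨α, hαd⟩ : ∃ α, α = GaussianInt.toComplex a := ⟨_, rfl⟩
  obtain ⟨β, hβd⟩ : ∃ β, β = GaussianInt.toComplex b := ⟨_, rfl⟩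
  rw [← hαd] at hα hαβ
  rw [← hβd] at hβ hαβ
  let F : Set ℂ := {z | ∃ m : ℤ, ∃ y ∈ Â, z = y / L + m}
  let B : Set ℂ := {z | ∃ m : ℤ, ∃ y ∈ Â, z = y / L + c + m * I}
  have stepF : ∀ m : ℤ, JoinedIn F (m : ℂ) ((m + 1 : ℤ) : ℂ) := by
    intro m
    have j1 := joined_map (G := F) (fun y => y / L + m) (by fun_prop) (hjoin α hα)
      (fun z hz => ⟨m, z, hz, rfl⟩)
    have j2 := joined_map (G := F) (fun y => y / L + (m + 1 : ℤ)) (by fun_prop) (hjoin β hβ)
      (fun z hz => ⟨m + 1, z, hz, rfl⟩)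
    have e : α / L + m = β / L + (m + 1 : ℤ) := by
      rw [hαβ]
      push_cast
      field_simp
      ring
    simp only [zero_div, zero_add] at j1 j2
    rw [e] at j1
    exact j1.trans j2.symm
  have stepB : ∀ m : ℤ, JoinedIn B (c + m * I) (c + (m + 1 : ℤ) * I) := by
    intro m
    have j1 := joined_map (G := B) (fun y => y / L + c + m * I) (by fun_prop)
      (hjoin _ (hrot α hα)) (fun z hz => ⟨m, z, hz, rfl⟩)
    have j2 := joined_map (G := B) (fun y => y / L + c + (m + 1 : ℤ) * I) (by fun_prop)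
      (hjoin _ (hrot β hβ)) (fun z hz => ⟨m + 1, z, hz, rfl⟩)
    have e : I * α / L + c + m * I = I * β / L + c + (m + 1 : ℤ) * I := by
      rw [hαβ]
      push_cast
      field_simp
      ring
    simp only [zero_div, zero_add] at j1 j2
    rw [e] at j1
    exact j1.trans j2.symm
  have chF : ∀ (m : ℤ) (k : ℕ), JoinedIn F (m : ℂ) ((m + k : ℤ) : ℂ) := by
    intro m k
    induction k with
    | zero =>
      simp only [Nat.cast_zero, add_zero]
      exact JoinedIn.refl (stepF m).source_mem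
    | succ k ih =>
      have := stepF (m + k)
      have e : m + ((k + 1 : ℕ) : ℤ) = m + (k : ℤ) + 1 := by push_cast; ring
      rw [e]
      exact ih.trans this
  have chB : ∀ (m : ℤ) (k : ℕ), JoinedIn B (c + m * I) (c + (m + k : ℤ) * I) := by
    intro m k
    induction k with
    | zero =>
      simp only [Nat.cast_zero, add_zero]
      exact JoinedIn.refl (stepB m).source_mem
    | succ k ih =>
      have := stepB (m + k)
      have e : m + ((k + 1 : ℕ) : ℤ) = m + (k : ℤ) + 1 := by push_cast; ring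
      rw [e]
      exact ih.trans this
  obtain ⟨M, hM⟩ : ∃ M : ℕ, r + ‖c‖ + 1 ≤ M := exists_nat_ge _
  have jF := chF (-(M : ℤ)) (2 * M)
  have jB := chB (-(M : ℤ)) (2 * M)
  have e2 : -(M : ℤ) + ((2 * M : ℕ) : ℤ) = M := by push_cast; ring
  rw [e2] at jF jB
  have hreB : ∀ x ∈ B, |x.re| ≤ r + ‖c‖ := by
    rintro x ⟨m, y, hy, rfl⟩
    have h1 := Complex.abs_re_le_norm (y / L)
    have h2 := hrb y hy
    have h3 := Complex.abs_re_le_norm c
    have e3 : (y / L + c + m * I).re = (y / L).re + c.re := by simp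
    rw [e3]
    exact (abs_add_le _ _).trans (by linarith)
  have himF : ∀ x ∈ F, |x.im| ≤ r := by
    rintro x ⟨m, y, hy, rfl⟩
    have h1 := Complex.abs_im_le_norm (y / L)
    have h2 := hrb y hy
    have e3 : (y / L + m).im = (y / L).im := by simp
    rw [e3]
    linarith
  have hci := Complex.abs_im_le_norm c
  have hci' := abs_le.1 hci
  obtain ⟨x, ⟨m, y, hy, e3⟩, ⟨n, y', hy', e4⟩⟩ := crossJ jF jB
    (by
      intro x hx
      have := abs_le.1 (hreB x hx)
      simp
      linarith)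
    (by
      intro x hx
      have := abs_le.1 (hreB x hx)
      simp
      linarith)
    (by
      intro x hx
      have := abs_le.1 (himF x hx)
      simp
      linarith)
    (by
      intro x hx
      have := abs_le.1 (himF x hx)
      simp
      linarith)
  have e5 : y + GaussianInt.toComplex (m * l) =
      y' + GaussianInt.toComplex (v + n * II * l) := by
    rw [map_mul, map_add, map_mul, map_mul, toC_II, map_intCast, map_intCast, ← hL]
    have e6 : y / L + m = y' / L + c + n * I := by rw [← e3, e4]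
    have e7 : GaussianInt.toComplex v = c * L := by rw [hc]; field_simp
    rw [e7]
    calc y + m * L = (y / L + m) * L := by field_simp
      _ = (y' / L + c + n * I) * L := by rw [e6]
      _ = _ := by field_simp; ring
  rw [hÂ] at hy hy'
  obtain ⟨a', ha', b', hb', e8⟩ := common hw hw hy hy' e5
  refine ⟨a', ha', b', hb', n * II - m, ?_⟩
  have : a' - b' = v + n * II * l - m * l := by
    rw [sub_eq_sub_iff_add_eq_add]
    rw [e8]
    ring
  rw [this]
  ring

end Pool.Agent.H986.DS
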