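import Pool.Agent.H986.DS.Grow

/-!
There are at most `norm v` classes modulo `v`.
-/

set_option autoImplicit false

namespace Pool.Agent.H986.DS

theorem emod_diff {x y g : ℤ} (h : x % g = y % g) : x - y = g * (x / g - y / g) := by
  have h1 := Int.emod_add_mul_ediv x g
  have h2 := Int.emod_add_mul_ediv y g
  rw [mul_sub]
  linarith

theorem pig {v : GaussianInt} (hv : v ≠ 0) {N : ℕ} (hN : v.norm ≤ N) {w : ℕ → GaussianInt}
    (inj : ∀ i ≤ N, ∀ j ≤ N, w i = w j → i = j) : ∃ i ≤ N, ∃ j ≤ N, i ≠ j ∧ v ∣ w i - w j := by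
  classical
  obtain ⟨g, hg⟩ : ∃ g : ℤ, g = Int.gcd v.re v.im := ⟨_, rfl⟩
  have hg0 : 0 < g := by
    rw [hg]
    have : 0 < Int.gcd v.re v.im := by
      rw [Nat.pos_iff_ne_zero]
      intro h
      rw [Int.gcd_eq_zero_iff] at h
      exact hv (Zsqrtd.ext h.1 h.2)
    exact_mod_cast this
  obtain ⟨a, ha⟩ : g ∣ v.re := by rw [hg]; exact Int.gcd_dvd_left ..
  obtain ⟨b, hb⟩ : g ∣ v.im := by rw [hg]; exact Int.gcd_dvd_right ..
  have hbez := Int.gcd_eq_gcd_ab v.re v.im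
  rw [← hg] at hbez
  obtain ⟨x, hx⟩ : ∃ x, x = Int.gcdA v.re v.im := ⟨_, rfl⟩
  obtain ⟨y, hy⟩ : ∃ y, y = Int.gcdB v.re v.im := ⟨_, rfl⟩
  rw [← hx, ← hy] at hbez
  obtain ⟨c, hc⟩ : ∃ c, c = v.re * y - v.im * x := ⟨_, rfl⟩
  obtain ⟨q, hq⟩ : ∃ q, q = g * (a * a + b * b) := ⟨_, rfl⟩
  have hnorm : v.norm = g * q := by
    rw [Zsqrtd.norm_def, hq, ha, hb]
    ring
  have hq0 : 0 < q := by
    have h1 : 0 < v.norm := by
      have h2 : 0 ≤ v.norm := by
        rw [Zsqrtd.norm_def]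
        nlinarith [mul_self_nonneg v.re, mul_self_nonneg v.im]
      rcases eq_or_lt_of_le h2 with h3 | h3
      · exfalso
        rw [Zsqrtd.norm_def] at h3
        apply hv
        apply Zsqrtd.ext
        · have : v.re * v.re = 0 := by nlinarith [mul_self_nonneg v.re, mul_self_nonneg v.im]
          simpa using this
        · have : v.im * v.im = 0 := by nlinarith [mul_self_nonneg v.re, mul_self_nonneg v.im]
          simpa using this
      · exact h3
    rw [hnorm] at h1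
    exact (pos_iff_pos_of_mul_pos h1).1 hg0
  have d1 : v ∣ (⟨c, g⟩ : GaussianInt) := by
    refine ⟨⟨y, x⟩, ?_⟩
    apply Zsqrtd.ext
    · simp only [Zsqrtd.re_mul]
      rw [hc]
      ring
    · simp only [Zsqrtd.im_mul]
      rw [hbez]
  have d2 : v ∣ (⟨q, 0⟩ : GaussianInt) := by
    refine ⟨⟨a, -b⟩, ?_⟩
    apply Zsqrtd.ext
    · simp only [Zsqrtd.re_mul]
      rw [ha, hb, hq]
      ring
    · simp only [Zsqrtd.im_mul]
      rw [ha, hb]
      ring
  let f : GaussianInt → ℤ × ℤ := fun p => (p.im % g, (p.re - p.im / g * c) % q)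
  have hf : Set.MapsTo (fun i : ℕ => f (w i)) (↑(Finset.range (N + 1)) : Set ℕ)
      (↑(Finset.Ico 0 g ×ˢ Finset.Ico 0 q) : Set (ℤ × ℤ)) := by
    intro i _
    rw [Finset.mem_coe, Finset.mem_product, Finset.mem_Ico, Finset.mem_Ico]
    exact ⟨⟨Int.emod_nonneg _ hg0.ne', Int.emod_lt_of_pos _ hg0⟩,
      ⟨Int.emod_nonneg _ hq0.ne', Int.emod_lt_of_pos _ hq0⟩⟩
  have hcard : (Finset.Ico 0 g ×ˢ Finset.Ico 0 q).card < (Finset.range (N + 1)).card := by
    rw [Finset.card_product, Int.card_Ico, Int.card_Ico, Finset.card_range, sub_zero, sub_zero]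
    have h1 : ((g.toNat * q.toNat : ℕ) : ℤ) = g * q := by
      push_cast
      rw [Int.toNat_of_nonneg hg0.le, Int.toNat_of_nonneg hq0.le]
    have h2 : ((g.toNat * q.toNat : ℕ) : ℤ) ≤ N := by rw [h1, ← hnorm]; exact hN
    have h3 : g.toNat * q.toNat ≤ N := by exact_mod_cast h2
    omega
  obtain ⟨i, hi, j, hj, hij, e⟩ := Finset.exists_ne_map_eq_of_card_lt_of_maps_to hcard hf
  rw [Finset.mem_range] at hi hj
  refine ⟨i, by omega, j, by omega, hij, ?_⟩
  simp only [f, Prod.mk.injEq] at e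
  have e1 := emod_diff e.1
  have e2 := emod_diff e.2
  obtain ⟨τ, hτ⟩ : ∃ τ, τ = (w i).im / g - (w j).im / g := ⟨_, rfl⟩
  obtain ⟨σ, hσ⟩ : ∃ σ, σ = ((w i).re - (w i).im / g * c) / q - ((w j).re - (w j).im / g * c) / q :=
    ⟨_, rfl⟩
  rw [← hτ] at e1
  rw [← hσ] at e2
  have e3 : w i - w j = (⟨c, g⟩ : GaussianInt) * ⟨τ, 0⟩ + (⟨q, 0⟩ : GaussianInt) * ⟨σ, 0⟩ := by
    apply Zsqrtd.ext
    · simp only [Zsqrtd.re_add, Zsqrtd.re_mul, Zsqrtd.re_sub]
      rw [hτ]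
      rw [hτ] at e1
      linear_combination e2
    · simp only [Zsqrtd.im_add, Zsqrtd.im_mul, Zsqrtd.im_sub]
      linear_combination e1
  rw [e3]
  exact dvd_add (d1.mul_right _) (d2.mul_right _)

end Pool.Agent.H986.DS
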