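import Pool.Agent.H986.DS.Main
import Pool.Agent.H986.MT.Cnt

/-!
The probability that two self-avoiding walks with different starting points meet.
-/

set_option autoImplicit false

namespace Pool.Agent.H986.DS

open Pool.Agent.H986.MT Complex

/-- the walk with values in the Gaussian integers -/
def wg {n : ℕ} (ω : Fin (n + 1) → ℤ × ℤ) (k : ℕ) : GaussianInt := ⟨(seq ω k).1, (seq ω k).2⟩

theorem pr_wg {n : ℕ} (ω : Fin (n + 1) → ℤ × ℤ) (k : ℕ) : pr (wg ω k) = seq ω k := rfl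

/-- **The sixteen pairs.** -/
theorem sixteen {n m N M : ℕ} (x : ℤ × ℤ)
    (h : ∀ ω ω', IsSAW n ω → IsSAW m ω' →
      ∃ k l : ℕ, ∃ i ≤ n, ∃ j ≤ m, i ≤ N ∧ j ≤ M ∧
        rt^[k] (seq ω i) = x + rt^[l] (seq ω' j)) :
    1 ≤ 16 * meetProb n m N M x := by
  classical
  have hfn := finite_saw n
  have hfm := finite_saw m
  set A := hfn.toFinset with hA
  set B := hfm.toFinset with hB
  have eA : ({ω : Fin (n + 1) → ℤ × ℤ | IsSAW n ω}.ncard : ℝ) = A.card := by
    rw [hA, Set.ncard_eq_toFinset_card _ hfn]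
  have eB : ({ω : Fin (m + 1) → ℤ × ℤ | IsSAW m ω}.ncard : ℝ) = B.card := by
    rw [hB, Set.ncard_eq_toFinset_card _ hfm]
  have memA : ∀ ω, ω ∈ A ↔ IsSAW n ω := fun ω => by simp [hA]
  have memB : ∀ ω, ω ∈ B ↔ IsSAW m ω := fun ω => by simp [hB]
  set MM := (A ×ˢ B).filter (fun p : (Fin (n + 1) → ℤ × ℤ) × (Fin (m + 1) → ℤ × ℤ) =>
    ∃ (i : Fin (n + 1)) (j : Fin (m + 1)), (i : ℕ) ≤ N ∧ (j : ℕ) ≤ M ∧ p.1 i = x + p.2 j) with hMM
  have eM : ({p : (Fin (n + 1) → ℤ × ℤ) × (Fin (m + 1) → ℤ × ℤ) | IsSAW n p.1 ∧ IsSAW m p.2 ∧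
      ∃ (i : Fin (n + 1)) (j : Fin (m + 1)), (i : ℕ) ≤ N ∧ (j : ℕ) ≤ M ∧
        p.1 i = x + p.2 j}.ncard : ℝ) = MM.card := by
    rw [← Set.ncard_coe_finset]
    congr 2
    ext p
    simp only [hMM, Finset.coe_filter, Finset.mem_product, memA, memB, Set.mem_ofPred_eq]
    tauto
  let Bk : ℕ × ℕ → (Fin (n + 1) → ℤ × ℤ) × (Fin (m + 1) → ℤ × ℤ) → Prop := fun kl p =>
    ∃ (i : Fin (n + 1)) (j : Fin (m + 1)), (i : ℕ) ≤ N ∧ (j : ℕ) ≤ M ∧
      rt^[kl.1] (p.1 i) = x + rt^[kl.2] (p.2 j)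
  have hsub : A ×ˢ B ⊆ (Finset.range 4 ×ˢ Finset.range 4).biUnion
      fun kl => (A ×ˢ B).filter (Bk kl) := by
    rintro ⟨ω, ω'⟩ hp
    have hp' := hp
    rw [Finset.mem_product, memA, memB] at hp'
    obtain ⟨k, l, i, hi, j, hj, hiN, hjN, e⟩ := h ω ω' hp'.1 hp'.2
    rw [rt_mod k, rt_mod l, seq_of_le ω hi, seq_of_le ω' hj] at e
    rw [Finset.mem_biUnion]
    refine ⟨(k % 4, l % 4), ?_, ?_⟩
    · rw [Finset.mem_product, Finset.mem_range, Finset.mem_range]
      exact ⟨Nat.mod_lt _ (by norm_num), Nat.mod_lt _ (by norm_num)⟩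
    · rw [Finset.mem_filter]
      exact ⟨hp, _, _, hiN, hjN, e⟩
  have hcard : ∀ kl ∈ Finset.range 4 ×ˢ Finset.range 4,
      ((A ×ˢ B).filter (Bk kl)).card ≤ MM.card := by
    rintro ⟨k, l⟩ _
    refine Finset.card_le_card_of_injOn
      (fun p => (fun i => rt^[k] (p.1 i), fun j => rt^[l] (p.2 j))) ?_ ?_
    · rintro ⟨ω, ω'⟩ hp
      rw [Finset.mem_coe, Finset.mem_filter, Finset.mem_product, memA, memB] at hp
      obtain ⟨⟨h1, h2⟩, i, j, hiN, hjN, e⟩ := hp
      rw [Finset.mem_coe, hMM, Finset.mem_filter, Finset.mem_product, memA, memB]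
      exact ⟨⟨saw_rt_iter k h1, saw_rt_iter l h2⟩, i, j, hiN, hjN, e⟩
    · rintro ⟨ω, ω'⟩ _ ⟨η, η'⟩ _ e
      simp only [Prod.mk.injEq] at e
      refine Prod.ext (funext fun i => ?_) (funext fun j => ?_)
      · exact rt_inj.iterate k (congrFun e.1 i)
      · exact rt_inj.iterate l (congrFun e.2 j)
  have hle : (A ×ˢ B).card ≤ 16 * MM.card := by
    refine (Finset.card_le_card hsub).trans (Finset.card_biUnion_le.trans ?_)
    refine (Finset.sum_le_card_nsmul _ _ _ hcard).trans ?_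
    rw [Finset.card_product, Finset.card_range, smul_eq_mul]
  rw [Finset.card_product] at hle
  have hle' : (A.card : ℝ) * (B.card : ℝ) ≤ 16 * (MM.card : ℝ) := by exact_mod_cast hle
  have pA := count_pos n
  have pB := count_pos m
  unfold meetProb
  rw [eA] at pA
  rw [eB] at pB
  rw [eM, eA, eB, ← mul_div_assoc, le_div_iff₀ (mul_pos pA pB), one_mul]
  exact hle'

theorem wg_zero {n : ℕ} {ω : Fin (n + 1) → ℤ × ℤ} (h : IsSAW n ω) : wg ω 0 = 0 := by
  apply pr_inj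
  rw [pr_wg, seq_zero h]
  rfl

theorem wg_near {n N : ℕ} (hN : N ≤ n) {ω : Fin (n + 1) → ℤ × ℤ} (h : IsSAW n ω) :
    ∀ k < N, Near (pr (wg ω k)) (pr (wg ω (k + 1))) := by
  intro k hk
  rw [pr_wg, pr_wg]
  exact seq_near h k (by omega)

theorem wg_shifted {n N : ℕ} (hN : N ≤ n) {ω : Fin (n + 1) → ℤ × ℤ} (h : IsSAW n ω)
    {g : GaussianInt} (hg : g ≠ 0) (hN' : 4 * g.norm ≤ N) :
    ∃ a ∈ SS (wg ω) N, ∃ b ∈ SS (wg ω) N, a = b + 2 * g := by
  refine shifted (mul_ne_zero ?_ hg) ?_ (wg_zero h) (wg_near hN h) ?_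
  · intro h
    have := congrArg Zsqrtd.re h
    simp at this
  · rw [Zsqrtd.norm_mul]
    have : (2 : GaussianInt).norm = 4 := by
      rw [Zsqrtd.norm_def]
      simp
    rw [this]
    exact hN'
  · intro i hi j hj e
    exact seq_inj h i (by omega) j (by omega) (congrArg pr e)

/-- **Two walks.** -/
theorem walks (x : ℤ × ℤ) (N n m : ℕ) (hN : 4 * (x.1 ^ 2 + x.2 ^ 2) ≤ (N : ℤ)) (hn : N ≤ n)
    (hm : N ≤ m) : 1 / 16 ≤ meetProb n m N N x := by
  have key := sixteen (n := n) (m := m) (N := N) (M := N) x (by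
    intro ω ω' h h'
    rcases eq_or_ne x 0 with rfl | hx
    · exact ⟨0, 0, 0, Nat.zero_le _, 0, Nat.zero_le _, Nat.zero_le _, Nat.zero_le _, by
        rw [seq_zero h, seq_zero h']
        simp⟩
    · obtain ⟨g, hg⟩ : ∃ g : GaussianInt, g = ⟨x.1, x.2⟩ := ⟨_, rfl⟩
      have hgx : pr g = x := by rw [hg]; rfl
      have hg0 : g ≠ 0 := by
        rintro rfl
        apply hx
        rw [← hgx]
        rfl
      have hgn : 4 * g.norm ≤ N := by
        rw [hg, Zsqrtd.norm_def]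
        linarith
      obtain ⟨a, ⟨k, i, hi, rfl⟩, b, ⟨l, j, hj, rfl⟩, e⟩ := det_walks hg0 (wg_zero h)
        (wg_near hn h) (wg_shifted hn h hg0 hgn) (wg_zero h') (wg_near hm h')
        (wg_shifted hm h' hg0 hgn)
      refine ⟨k, l, i, by omega, j, by omega, hi, hj, ?_⟩
      have e2 := congrArg pr e
      rw [pr_add, pr_pow, pr_pow, pr_wg, pr_wg, hgx, add_comm] at e2
      exact e2)
  linarith

/-- **A walk and a path.** -/
theorem walk_path (x : ℤ × ℤ) (N n l : ℕ) (u : Fin (l + 1) → ℤ × ℤ) (u0 : u 0 = (0, 0))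
    (u1 : ∀ i : Fin l, |(u i.succ).1 - (u i.castSucc).1| + |(u i.succ).2 - (u i.castSucc).2| = 1)
    (hN : 4 * (x.1 ^ 2 + x.2 ^ 2) ≤ (N : ℤ)) (hn : N ≤ n)
    (hu : ∃ j, 25 * (x.1 ^ 2 + x.2 ^ 2) ^ 2 < (u j).1 ^ 2 + (u j).2 ^ 2) :
    1 / 4 ≤ prob n (fun ω => ∃ (i : Fin (n + 1)) (j : Fin (l + 1)), (i : ℕ) ≤ N ∧ ω i = x + u j) +
      prob n (fun ω => ∃ (i : Fin (n + 1)) (j : Fin (l + 1)), (i : ℕ) ≤ N ∧ ω i = x - u j) := by
  have s0 : seq u 0 = 0 := by
    rw [seq_of_le u (Nat.zero_le l)]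
    exact u0
  have s1 : ∀ k < l, Near (seq u k) (seq u (k + 1)) := by
    intro k hk
    rw [seq_of_le u hk.le, seq_of_le u hk]
    exact (u1 ⟨k, hk⟩).le
  have key := four (n := n) (l := l) (N := N) x u (fun _ => True) (by
    intro ω h _
    rcases eq_or_ne x 0 with rfl | hx
    · exact ⟨0, 0, Nat.zero_le _, 0, Nat.zero_le _, Nat.zero_le _, Or.inl (by
        rw [seq_zero h, s0]
        simp)⟩
    · obtain ⟨g, hg⟩ : ∃ g : GaussianInt, g = ⟨x.1, x.2⟩ := ⟨_, rfl⟩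
      have hgx : pr g = x := by rw [hg]; rfl
      have hg0 : g ≠ 0 := by
        rintro rfl
        apply hx
        rw [← hgx]
        rfl
      have hgn : g.norm = x.1 ^ 2 + x.2 ^ 2 := by
        rw [hg, Zsqrtd.norm_def]
        simp only
        ring
      obtain ⟨N', hN'⟩ := Int.eq_ofNat_of_zero_le (by positivity : 0 ≤ 4 * (x.1 ^ 2 + x.2 ^ 2))
      have hN'n : N' ≤ N := by
        rw [hN'] at hN
        exact_mod_cast hN
      obtain ⟨j, hj⟩ := hu
      have hq1 : (1 : ℤ) ≤ x.1 ^ 2 + x.2 ^ 2 := by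
        have h1 : 0 < x.1 ^ 2 + x.2 ^ 2 := by
          rcases lt_or_eq_of_le (by positivity : 0 ≤ x.1 ^ 2 + x.2 ^ 2) with h | h
          · exact h
          · exfalso
            apply hx
            have a1 : x.1 ^ 2 = 0 := by nlinarith [sq_nonneg x.1, sq_nonneg x.2]
            have a2 : x.2 ^ 2 = 0 := by nlinarith [sq_nonneg x.1, sq_nonneg x.2]
            exact Prod.ext (by simpa using a1) (by simpa using a2)
        omega
      obtain ⟨q, hq⟩ : ∃ q : ℝ, q = (x.1 : ℝ) ^ 2 + (x.2 : ℝ) ^ 2 := ⟨_, rfl⟩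
      have hq1' : 1 ≤ q := by rw [hq]; exact_mod_cast hq1
      have hN'q : (N' : ℝ) = 4 * q := by
        rw [hq]
        have := congrArg (fun z : ℤ => (z : ℝ)) hN'
        push_cast at this
        linarith
      have hxn : ‖GaussianInt.toComplex g‖ ≤ q := by
        have h1 : ‖GaussianInt.toComplex g‖ ^ 2 = q := by
          rw [← pt_pr, hgx, Complex.sq_norm, Complex.normSq_apply, pt_re, pt_im, hq]
          ring
        have h2 := norm_nonneg (GaussianInt.toComplex g)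
        nlinarith
      obtain ⟨a, ⟨k, i, hi, rfl⟩, j', hj', e⟩ := det_path (x := g) (N := N') (l := l) (w := wg ω)
        (u := wg u) (wg_zero h) (wg_near (by omega) h)
        (wg_shifted (by omega) h hg0 (by rw [hgn, hN'])) (by
          apply pr_inj
          rw [pr_wg, s0]
          rfl) (by
          intro k hk
          rw [pr_wg, pr_wg]
          exact s1 k hk) ⟨j.1, by omega, by
            rw [pr_wg, seq_of_le u (by omega)]
            have h1 : (25 : ℝ) * q ^ 2 < ((u j).1 : ℝ) ^ 2 + ((u j).2 : ℝ) ^ 2 := by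
              rw [hq]
              exact_mod_cast hj
            have h2 : ‖pt (u j)‖ ^ 2 = ((u j).1 : ℝ) ^ 2 + ((u j).2 : ℝ) ^ 2 := by
              rw [Complex.sq_norm, Complex.normSq_apply, pt_re, pt_im]
              ring
            have h3 := norm_nonneg (pt (u j))
            have h4 : 5 * q < ‖pt (u j)‖ := by
              by_contra hcon
              push Not at hcon
              nlinarith
            change (N' : ℝ) + ‖GaussianInt.toComplex g‖ < ‖pt (u j)‖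
            linarith⟩
      refine ⟨k, i, by omega, j', hj', by omega, ?_⟩
      rcases e with e | e
      · left
        have e2 := congrArg pr e
        rw [pr_add, pr_pow, pr_wg, pr_wg, hgx] at e2
        exact e2
      · right
        have e2 := congrArg pr e
        rw [sub_eq_add_neg, pr_add, pr_pow, pr_wg, pr_wg] at e2
        rw [e2, ← hgx]
        simp [pr])
  rw [prob_true] at key
  linarith

/-- the site `x` as a Gaussian integer -/
theorem site {x : ℤ × ℤ} (hx : x ≠ 0) : ∃ g : GaussianInt, g ≠ 0 ∧ pr g = x ∧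
    g.norm = x.1 ^ 2 + x.2 ^ 2 ∧ 1 ≤ x.1 ^ 2 + x.2 ^ 2 ∧
    ‖GaussianInt.toComplex g‖ ≤ (x.1 : ℝ) ^ 2 + (x.2 : ℝ) ^ 2 := by
  obtain ⟨g, hg⟩ : ∃ g : GaussianInt, g = ⟨x.1, x.2⟩ := ⟨_, rfl⟩
  have hgx : pr g = x := by rw [hg]; rfl
  have hg0 : g ≠ 0 := by
    rintro rfl
    apply hx
    rw [← hgx]
    rfl
  have hgn : g.norm = x.1 ^ 2 + x.2 ^ 2 := by
    rw [hg, Zsqrtd.norm_def]
    simp only
    ring
  have hq1 : (1 : ℤ) ≤ x.1 ^ 2 + x.2 ^ 2 := by
    have h1 : 0 < x.1 ^ 2 + x.2 ^ 2 := by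
      rcases lt_or_eq_of_le (by positivity : 0 ≤ x.1 ^ 2 + x.2 ^ 2) with h | h
      · exact h
      · exfalso
        apply hx
        have a1 : x.1 ^ 2 = 0 := by nlinarith [sq_nonneg x.1, sq_nonneg x.2]
        have a2 : x.2 ^ 2 = 0 := by nlinarith [sq_nonneg x.1, sq_nonneg x.2]
        exact Prod.ext (by simpa using a1) (by simpa using a2)
    omega
  obtain ⟨q, hq⟩ : ∃ q : ℝ, q = (x.1 : ℝ) ^ 2 + (x.2 : ℝ) ^ 2 := ⟨_, rfl⟩
  have hq1' : 1 ≤ q := by rw [hq]; exact_mod_cast hq1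
  refine ⟨g, hg0, hgx, hgn, hq1, ?_⟩
  have h1 : ‖GaussianInt.toComplex g‖ ^ 2 = q := by
    rw [← pt_pr, hgx, Complex.sq_norm, Complex.normSq_apply, pt_re, pt_im, hq]
    ring
  have h2 := norm_nonneg (GaussianInt.toComplex g)
  rw [← hq]
  nlinarith

/-- **Two walks**, one of them longer. -/
theorem walks8 (x : ℤ × ℤ) (N M n m : ℕ) (hN : 4 * (x.1 ^ 2 + x.2 ^ 2) ≤ (N : ℤ))
    (hM : 121 * (x.1 ^ 2 + x.2 ^ 2) ^ 2 ≤ (M : ℤ)) (hn : N ≤ n) (hm : M ≤ m) :
    1 / 8 ≤ meetProb n m N M x := by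
  have key := eight (n := n) (m := m) (N := N) (M := M) x (fun _ => True) (fun _ => True) (by
    intro ω ω' h h' _ _
    rcases eq_or_ne x 0 with rfl | hx
    · exact ⟨0, 0, Nat.zero_le _, 0, Nat.zero_le _, Nat.zero_le _, Nat.zero_le _, Or.inl (by
        rw [seq_zero h, seq_zero h']
        simp)⟩
    · obtain ⟨g, hg0, hgx, hgn, hq1, hxn⟩ := site hx
      obtain ⟨Q, hQ⟩ := Int.eq_ofNat_of_zero_le (by positivity : 0 ≤ x.1 ^ 2 + x.2 ^ 2)
      rw [hQ] at hN hM hq1 hgn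
      have hN' : 4 * Q ≤ N := by exact_mod_cast hN
      have hM' : 121 * Q ^ 2 ≤ M := by exact_mod_cast hM
      have hQ1 : 1 ≤ Q := by exact_mod_cast hq1
      have hQr : (x.1 : ℝ) ^ 2 + (x.2 : ℝ) ^ 2 = Q := by
        have := congrArg (fun z : ℤ => (z : ℝ)) hQ
        push_cast at this
        exact this
      rw [hQr] at hxn
      obtain ⟨j, hj, hjf⟩ := reach (n := M) (B := 5 * Q) (v := seq ω')
        (fun i hi j hj => seq_inj h' i (by omega) j (by omega)) (by nlinarith)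
      obtain ⟨a, ⟨k, i, hi, rfl⟩, j', hj', e⟩ := det_path (x := g) (N := 4 * Q) (l := M)
        (w := wg ω) (u := wg ω') (wg_zero h) (wg_near (by omega) h)
        (wg_shifted (by omega) h hg0 (by rw [hgn]; push_cast; linarith)) (wg_zero h')
        (wg_near hm h') ⟨j, hj, by
          rw [pr_wg]
          push_cast at hjf ⊢
          linarith⟩
      refine ⟨k, i, by omega, j', by omega, by omega, hj', ?_⟩
      rcases e with e | e
      · left
        have e2 := congrArg pr e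
        rw [pr_add, pr_pow, pr_wg, pr_wg, hgx] at e2
        exact e2
      · right
        have e2 := congrArg pr e
        rw [sub_eq_add_neg, pr_add, pr_pow, pr_wg, pr_wg] at e2
        rw [e2, ← hgx]
        simp [pr])
  rw [prob_true, prob_true] at key
  linarith

end Pool.Agent.H986.DS
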