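import Pool.Agent.H986.DS.Grid

/-!
The sharp deterministic theorem.
-/

set_option autoImplicit false

namespace Pool.Agent.H986.DS

open Pool.Agent.H986.MT Complex

/-- the height in the direction `U` -/
noncomputable def phi (U y : ℂ) : ℝ := U.re * y.re + U.im * y.im

/-- the integer version -/
def phiZ (U y : GaussianInt) : ℤ := U.re * y.re + U.im * y.im

theorem phi_cast (U y : GaussianInt) :
    phi (GaussianInt.toComplex U) (GaussianInt.toComplex y) = (phiZ U y : ℝ) := by
  unfold phi phiZ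
  rw [GaussianInt.toComplex_def, GaussianInt.toComplex_def]
  push_cast
  simp

theorem noescape {F B : Set ℂ} {z U y' : ℂ} (hU : U ≠ 0) {M : ℝ} (hF : JoinedIn F z (-z))
    (hM : ∀ f ∈ F, ‖f‖ ≤ M) (hB : JoinedIn B 0 y') (h1 : ∀ f ∈ F, f ∉ B) (h2 : ∀ f ∈ F, -f ∉ B)
    (h3 : ∀ f ∈ F, phi U f ≤ phi U y') (h4 : ∀ f ∈ F, phi U (-f) ≤ phi U y') : False := by
  have hM0 : 0 ≤ M := (norm_nonneg z).trans (hM z hF.source_mem)
  have hUn : 0 < ‖U‖ := norm_pos_iff.2 hU
  obtain ⟨T, hT⟩ : ∃ T, T = (M + ‖y'‖ + 1) / ‖U‖ := ⟨_, rfl⟩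
  have hT0 : 0 ≤ T := by rw [hT]; positivity
  let B' : Set ℂ := B ∪ {z | ∃ t : ℝ, 0 ≤ t ∧ z = y' + t * U}
  have hB' : JoinedIn B' 0 (y' + T * U) := by
    have j1 : JoinedIn B' 0 y' := hB.mono Set.subset_union_left
    refine j1.trans ?_
    refine JoinedIn.ofLine (f := fun u : ℝ => y' + ((u * T : ℝ) : ℂ) * U) (by fun_prop)
      (by simp) (by simp) ?_
    rintro _ ⟨u, hu, rfl⟩
    exact Or.inr ⟨u * T, mul_nonneg hu.1 hT0, rfl⟩
  have hfar : M < ‖y' + T * U‖ := by
    have h1 : ‖(T : ℂ) * U‖ = M + ‖y'‖ + 1 := by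
      rw [norm_mul, Complex.norm_real, Real.norm_of_nonneg hT0, hT]
      field_simp
    have h2 := norm_sub_norm_le ((T : ℂ) * U) (-y')
    rw [norm_neg, sub_neg_eq_add, add_comm _ y', h1] at h2
    linarith
  have hpos : 0 < U.re * U.re + U.im * U.im := by
    have := Complex.normSq_pos.2 hU
    rwa [Complex.normSq_apply] at this
  have noB : ∀ f ∈ B', phi U f ≤ phi U y' → f ∈ B := by
    rintro f (h | ⟨t, ht, rfl⟩) h'
    · exact h
    · have e : phi U (y' + t * U) = phi U y' + t * (U.re * U.re + U.im * U.im) := by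
        unfold phi
        simp
        ring
      rw [e] at h'
      have h5 : t = 0 := by
        by_contra h4
        have h5 : 0 < t := lt_of_le_of_ne ht (Ne.symm h4)
        have := mul_pos h5 hpos
        linarith
      rw [h5]
      simpa using hB.target_mem
  obtain ⟨f, hf, h | h⟩ := sepJ hF hM hB' hfar
  · exact h1 f hf (noB f h (h3 f hf))
  · exact h2 f hf (noB (-f) h (h4 f hf))

/-- the arm of a site -/
theorem arm {w : ℕ → GaussianInt} {s : ℕ} (w0 : w 0 = 0)
    (hw : ∀ k < s + 1, Near (pr (w k)) (pr (w (k + 1)))) {P : Set GaussianInt}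
    {τ c : GaussianInt} (hP : ∀ p ∈ SS w s, p + τ ∈ P) (hc : c ∈ SS w (s + 1))
    (hcP : c + τ ∈ P) :
    JoinedIn (GP P) (GaussianInt.toComplex τ) (GaussianInt.toComplex (c + τ)) := by
  obtain ⟨k, j, hj, rfl⟩ := hc
  have key := gp_path (P := P) (w := fun i => II ^ k * w i + τ) (n := j) (by
    intro i hi
    rw [pr_add, pr_add, pr_pow, pr_pow]
    exact near_add (near_rt_iter k (hw i (by omega))) _) (by
    intro i hi
    rcases Nat.lt_or_ge i j with h | h
    · exact hP _ ⟨k, i, by omega, rfl⟩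
    · have : i = j := by omega
      subst this
      exact hcP)
  simp only [w0, mul_zero, zero_add] at key
  exact key

theorem gp_bound {P : Set GaussianInt} {C : ℝ} (h : ∀ p ∈ P, ‖GaussianInt.toComplex p‖ ≤ C) :
    ∀ f ∈ GP P, ‖f‖ ≤ C := by
  rintro f ⟨p, hp, q, hq, _, b, hb, rfl⟩
  have e : GaussianInt.toComplex p + (b : ℂ) * (GaussianInt.toComplex q - GaussianInt.toComplex p) =
      ((1 - b : ℝ) : ℂ) * GaussianInt.toComplex p + (b : ℂ) * GaussianInt.toComplex q := by
    push_cast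
    ring
  rw [e]
  refine (norm_add_le _ _).trans ?_
  rw [norm_mul, norm_mul, Complex.norm_real, Complex.norm_real,
    Real.norm_of_nonneg (show 0 ≤ 1 - b by linarith [hb.2]), Real.norm_of_nonneg hb.1]
  calc (1 - b) * ‖GaussianInt.toComplex p‖ + b * ‖GaussianInt.toComplex q‖
      ≤ (1 - b) * C + b * C := by
        have := mul_le_mul_of_nonneg_left (h p hp) (show 0 ≤ 1 - b by linarith [hb.2])
        have := mul_le_mul_of_nonneg_left (h q hq) hb.1
        linarith
    _ = C := by ring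

theorem gp_phi {P : Set GaussianInt} {U : ℂ} {C : ℝ}
    (h : ∀ p ∈ P, phi U (GaussianInt.toComplex p) ≤ C) : ∀ f ∈ GP P, phi U f ≤ C := by
  rintro f ⟨p, hp, q, hq, _, b, hb, rfl⟩
  have e : phi U (GaussianInt.toComplex p + (b : ℂ) *
      (GaussianInt.toComplex q - GaussianInt.toComplex p)) =
      (1 - b) * phi U (GaussianInt.toComplex p) + b * phi U (GaussianInt.toComplex q) := by
    unfold phi
    simp
    ring
  rw [e]
  have := mul_le_mul_of_nonneg_left (h p hp) (show 0 ≤ 1 - b by linarith [hb.2])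
  have := mul_le_mul_of_nonneg_left (h q hq) hb.1
  linarith

theorem gp_neg {P : Set GaussianInt} (h : ∀ p ∈ P, -p ∈ P) : ∀ f ∈ GP P, -f ∈ GP P := by
  rintro f ⟨p, hp, q, hq, hn, b, hb, rfl⟩
  refine ⟨-p, h p hp, -q, h q hq, ?_, b, hb, ?_⟩
  · unfold Near pr at *
    simp only [Zsqrtd.re_neg, Zsqrtd.im_neg] at *
    rw [show -q.re - -p.re = -(q.re - p.re) by ring, show -q.im - -p.im = -(q.im - p.im) by ring,
      abs_neg, abs_neg]
    exact hn
  · rw [map_neg, map_neg]
    ring

/-- the direction -/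
theorem direction {v μ : GaussianInt} (h : v ∣ μ) (hμ : μ ≠ 0) :
    ∃ U : GaussianInt, U ≠ 0 ∧ v.norm ≤ phiZ U μ ∧ phiZ U v ≤ v.norm ∧ |U.re| ≤ v.norm ∧
      |U.im| ≤ v.norm := by
  obtain ⟨κ, rfl⟩ := h
  have hv : v ≠ 0 := by
    rintro rfl
    simp at hμ
  have hκ : κ ≠ 0 := by
    rintro rfl
    simp at hμ
  have hn : v.norm = v.re * v.re + v.im * v.im := by
    rw [Zsqrtd.norm_def]
    ring
  have h1 := mul_self_nonneg v.re
  have h2 := mul_self_nonneg v.im
  have h3 : |v.re| ≤ v.norm := by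
    rw [hn]
    have : |v.re| ≤ v.re * v.re := by
      rcases eq_or_ne v.re 0 with h | h
      · rw [h]; simp
      · have := Int.one_le_abs h
        nlinarith [abs_mul_abs_self v.re]
    linarith
  have h4 : |v.im| ≤ v.norm := by
    rw [hn]
    have : |v.im| ≤ v.im * v.im := by
      rcases eq_or_ne v.im 0 with h | h
      · rw [h]; simp
      · have := Int.one_le_abs h
        nlinarith [abs_mul_abs_self v.im]
    linarith
  have h5 : 0 ≤ v.norm := by rw [hn]; linarith
  have hre : (v * κ).re = v.re * κ.re - v.im * κ.im := by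
    rw [Zsqrtd.re_mul]
    ring
  have him : (v * κ).im = v.re * κ.im + v.im * κ.re := by
    rw [Zsqrtd.im_mul]
  rcases lt_trichotomy κ.re 0 with h | h | h
  · refine ⟨-v, neg_ne_zero.2 hv, ?_, ?_, by simpa using h3, by simpa using h4⟩
    · have e : phiZ (-v) (v * κ) = v.norm * (-κ.re) := by
        unfold phiZ
        rw [hre, him, hn, Zsqrtd.re_neg, Zsqrtd.im_neg]
        ring
      rw [e]
      nlinarith
    · have e : phiZ (-v) v = -v.norm := by
        unfold phiZ
        rw [hn, Zsqrtd.re_neg, Zsqrtd.im_neg]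
        ring
      rw [e]
      linarith
  · have h6 : κ.im ≠ 0 := by
      intro h6
      exact hκ (Zsqrtd.ext h h6)
    rcases lt_or_gt_of_ne h6 with h7 | h7
    · refine ⟨⟨v.im, -v.re⟩, ?_, ?_, ?_, h4, by simpa using h3⟩
      · intro h8
        rw [Zsqrtd.ext_iff] at h8
        simp only [Zsqrtd.re_zero, Zsqrtd.im_zero, neg_eq_zero] at h8
        exact hv (Zsqrtd.ext h8.2 h8.1)
      · have e : phiZ ⟨v.im, -v.re⟩ (v * κ) = v.norm * (-κ.im) := by
          unfold phiZ
          rw [hre, him, hn]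
          ring
        rw [e]
        nlinarith
      · have e : phiZ ⟨v.im, -v.re⟩ v = 0 := by
          unfold phiZ
          ring
        rw [e]
        exact h5
    · refine ⟨⟨-v.im, v.re⟩, ?_, ?_, ?_, by simpa using h4, h3⟩
      · intro h8
        rw [Zsqrtd.ext_iff] at h8
        simp only [Zsqrtd.re_zero, Zsqrtd.im_zero, neg_eq_zero] at h8
        exact hv (Zsqrtd.ext h8.2 h8.1)
      · have e : phiZ ⟨-v.im, v.re⟩ (v * κ) = v.norm * κ.im := by
          unfold phiZ
          rw [hre, him, hn]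
          ring
        rw [e]
        nlinarith
      · have e : phiZ ⟨-v.im, v.re⟩ v = 0 := by
          unfold phiZ
          ring
        rw [e]
        exact h5
  · refine ⟨v, hv, ?_, ?_, h3, h4⟩
    · have e : phiZ v (v * κ) = v.norm * κ.re := by
        unfold phiZ
        rw [hre, him, hn]
        ring
      rw [e]
      nlinarith
    · have e : phiZ v v = v.norm := by
        unfold phiZ
        rw [hn]
      rw [e]

/-- the highest site -/
theorem highest {w : ℕ → GaussianInt} (s : ℕ) (hw : ∀ k < s + 1, Near (pr (w k)) (pr (w (k + 1))))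
    {U : GaussianInt} {n : ℤ} (h1 : |U.re| ≤ n) (h2 : |U.im| ≤ n) :
    ∃ c ∈ SS w s, (∀ p ∈ SS w s, phiZ U p ≤ phiZ U c) ∧
      ∀ p ∈ SS w (s + 1), phiZ U p ≤ phiZ U c + n := by
  obtain ⟨⟨k, j⟩, hkj, hmax⟩ := Finset.exists_max_image (Finset.range 4 ×ˢ Finset.range (s + 1))
    (fun kj => phiZ U (II ^ kj.1 * w kj.2)) ⟨(0, 0), by simp⟩
  rw [Finset.mem_product, Finset.mem_range, Finset.mem_range] at hkj
  have hm : ∀ p ∈ SS w s, phiZ U p ≤ phiZ U (II ^ k * w j) := by
    rintro p ⟨k', j', hj', rfl⟩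
    rw [II_mod k']
    exact hmax (k' % 4, j') (by
      rw [Finset.mem_product, Finset.mem_range, Finset.mem_range]
      exact ⟨Nat.mod_lt _ (by norm_num), by omega⟩)
  refine ⟨II ^ k * w j, ⟨k, j, by omega, rfl⟩, hm, ?_⟩
  intro p hp
  have hn0 : 0 ≤ n := (abs_nonneg _).trans h1
  rcases SS_succ hp with h | ⟨l, rfl⟩
  · linarith [hm p h]
  · have h3 := hm (II ^ l * w s) ⟨l, s, le_rfl, rfl⟩
    have h4 := near_rt_iter l (hw s (by omega))
    rw [← pr_pow, ← pr_pow] at h4
    obtain ⟨a, ha⟩ : ∃ a, a = II ^ l * w s := ⟨_, rfl⟩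
    obtain ⟨b, hb⟩ : ∃ b, b = II ^ l * w (s + 1) := ⟨_, rfl⟩
    rw [← ha, ← hb] at h4
    rw [← ha] at h3
    rw [← hb]
    unfold Near pr at h4
    simp only at h4
    have e : phiZ U b = phiZ U a + (U.re * (b.re - a.re) + U.im * (b.im - a.im)) := by
      unfold phiZ
      ring
    have h5 : U.re * (b.re - a.re) ≤ n * |b.re - a.re| := by
      refine (le_abs_self _).trans ?_
      rw [abs_mul]
      exact mul_le_mul_of_nonneg_right h1 (abs_nonneg _)
    have h6 : U.im * (b.im - a.im) ≤ n * |b.im - a.im| := by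
      refine (le_abs_self _).trans ?_
      rw [abs_mul]
      exact mul_le_mul_of_nonneg_right h2 (abs_nonneg _)
    rw [e]
    nlinarith

/-- the net of a walk which meets its translate -/
def VV (w : ℕ → GaussianInt) (t : ℕ) (v : GaussianInt) : Set ℂ :=
  {z | ∃ y ∈ A (cu w t) t, ∃ κ : GaussianInt, z = y + GaussianInt.toComplex (v * κ)}

theorem vv_step {w : ℕ → GaussianInt} (w0 : w 0 = 0) {t : ℕ} {v : GaussianInt} {a b : GaussianInt}
    (ha : a ∈ SS w t) (hb : b ∈ SS w t) (κ δ : GaussianInt) (e : a = b + v * δ) :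
    JoinedIn (VV w t v) (GaussianInt.toComplex (v * κ)) (GaussianInt.toComplex (v * (κ + δ))) := by
  have j1 := joined_map (G := VV w t v) (fun y => y + GaussianInt.toComplex (v * κ)) (by fun_prop)
    (A_joined (cu_cont w t) (cu_zero w0 t) (mem_A ha)) (fun z hz => ⟨z, hz, κ, rfl⟩)
  have j2 := joined_map (G := VV w t v) (fun y => y + GaussianInt.toComplex (v * (κ + δ)))
    (by fun_prop) (A_joined (cu_cont w t) (cu_zero w0 t) (mem_A hb))
    (fun z hz => ⟨z, hz, κ + δ, rfl⟩)
  have e2 : GaussianInt.toComplex a + GaussianInt.toComplex (v * κ) =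
      GaussianInt.toComplex b + GaussianInt.toComplex (v * (κ + δ)) := by
    rw [← map_add, ← map_add, e]
    congr 1
    ring
  simp only [zero_add] at j1 j2
  rw [e2] at j1
  exact j1.trans j2.symm

theorem vv_joined {w : ℕ → GaussianInt} (w0 : w 0 = 0) {t : ℕ} {v : GaussianInt}
    {a b : GaussianInt} (ha : a ∈ SS w t) (hb : b ∈ SS w t) (e : a = b + v) (κ : GaussianInt) :
    JoinedIn (VV w t v) 0 (GaussianInt.toComplex (v * κ)) := by
  have base : JoinedIn (VV w t v) 0 (GaussianInt.toComplex (v * 0)) := by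
    rw [mul_zero, map_zero]
    refine JoinedIn.refl ⟨0, ⟨0, 0, ⟨le_rfl, Nat.cast_nonneg _⟩, by rw [cu_zero w0]; simp⟩, 0, ?_⟩
    simp
  have sr : ∀ κ : GaussianInt, JoinedIn (VV w t v) (GaussianInt.toComplex (v * κ))
      (GaussianInt.toComplex (v * (κ + 1))) := fun κ =>
    vv_step w0 ha hb κ 1 (by rw [e, mul_one])
  have si : ∀ κ : GaussianInt, JoinedIn (VV w t v) (GaussianInt.toComplex (v * κ))
      (GaussianInt.toComplex (v * (κ + II))) := fun κ =>
    vv_step w0 (SS_rot ha 1) (SS_rot hb 1) κ II (by rw [e]; ring)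
  have re : ∀ m : ℤ, JoinedIn (VV w t v) 0 (GaussianInt.toComplex (v * (m : GaussianInt))) := by
    intro m
    induction m using Int.induction_on with
    | zero => rw [Int.cast_zero]; exact base
    | succ i ih =>
      have := sr ((i : ℤ) : GaussianInt)
      rw [Int.cast_add, Int.cast_one]
      exact ih.trans this
    | pred i ih =>
      have := sr ((-(i : ℤ) - 1 : ℤ) : GaussianInt)
      rw [Int.cast_sub, Int.cast_one, sub_add_cancel] at this
      rw [Int.cast_sub, Int.cast_one]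
      exact ih.trans this.symm
  have im : ∀ m n : ℤ, JoinedIn (VV w t v) 0
      (GaussianInt.toComplex (v * ((m : GaussianInt) + (n : GaussianInt) * II))) := by
    intro m n
    induction n using Int.induction_on with
    | zero => rw [Int.cast_zero, zero_mul, add_zero]; exact re m
    | succ i ih =>
      have := si ((m : GaussianInt) + ((i : ℤ) : GaussianInt) * II)
      have e3 : (m : GaussianInt) + (((i : ℤ) + 1 : ℤ) : GaussianInt) * II =
          (m : GaussianInt) + ((i : ℤ) : GaussianInt) * II + II := by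
        rw [Int.cast_add, Int.cast_one]
        ring
      rw [e3]
      exact ih.trans this
    | pred i ih =>
      have := si ((m : GaussianInt) + ((-(i : ℤ) - 1 : ℤ) : GaussianInt) * II)
      have e3 : (m : GaussianInt) + ((-(i : ℤ) - 1 : ℤ) : GaussianInt) * II + II =
          (m : GaussianInt) + ((-(i : ℤ) : ℤ) : GaussianInt) * II := by
        rw [Int.cast_sub, Int.cast_one]
        ring
      rw [e3] at this
      exact ih.trans this.symm
  have e4 : κ = (κ.re : GaussianInt) + (κ.im : GaussianInt) * II := by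
    apply Zsqrtd.ext <;> simp [II]
  rw [e4]
  exact im _ _

/-- a rotated site of `w` is congruent to a site of `x + w'` -/
theorem congruent {w w' : ℕ → GaussianInt} (w0 : w 0 = 0) {t M : ℕ}
    (hw : ∀ k < t, Near (pr (w k)) (pr (w (k + 1))))
    (hw' : ∀ k < M, Near (pr (w' k)) (pr (w' (k + 1)))) {v : GaussianInt}
    {a b : GaussianInt} (ha : a ∈ SS w t) (hb : b ∈ SS w t) (e : a = b + v)
    {i j : ℕ} (hj : j ≤ M) (hij : j ≤ i) (hi : i ≤ M) (hne : w' i ≠ w' j) (hd : v ∣ w' i - w' j)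
    (x : GaussianInt) :
    ∃ a ∈ SS w t, ∃ j ≤ M, ∃ μ, v ∣ μ ∧ a + μ = w' j + x := by
  obtain ⟨κ₀, hκ⟩ := hd
  obtain ⟨l, hl⟩ : ∃ l, l = w' i - w' j := ⟨_, rfl⟩
  have hl0 : l ≠ 0 := by rw [hl]; exact sub_ne_zero.2 hne
  obtain ⟨L, hL⟩ : ∃ L, L = GaussianInt.toComplex l := ⟨_, rfl⟩
  have hL0 : L ≠ 0 := by
    rw [hL]
    exact fun h => hl0 (GaussianInt.toComplex_eq_zero.1 h)
  -- the path of `w'`
  let K : Set ℂ := (fun t => cu w' M t + GaussianInt.toComplex x) '' Set.Icc (0 : ℝ) M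
  have hKc : IsCompact K := isCompact_Icc.image
    ((cu_cont w' M).add continuous_const)
  have cuj : ∀ i ≤ M, cu w' M i = GaussianInt.toComplex (w' i) := by
    intro i hi
    unfold cu
    rw [lin_nat hi, pt_pr]
  have jK : JoinedIn K (GaussianInt.toComplex (w' j) + GaussianInt.toComplex x)
      (GaussianInt.toComplex (w' j) + GaussianInt.toComplex x + L) := by
    refine JoinedIn.ofLine (f := fun u : ℝ => cu w' M (j + u * (i - j)) +
      GaussianInt.toComplex x) (((cu_cont w' M).comp (by fun_prop)).add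
        continuous_const).continuousOn ?_ ?_ ?_
    · simp only [zero_mul, add_zero]
      rw [cuj j hj]
    · have e1 : (j : ℝ) + 1 * (i - j) = i := by ring
      simp only [e1]
      rw [cuj i hi, hL, hl, map_sub]
      ring
    · rintro _ ⟨u, hu, rfl⟩
      have h1 : (j : ℝ) ≤ i := by exact_mod_cast hij
      have h2 : (i : ℝ) ≤ M := by exact_mod_cast hi
      refine ⟨j + u * (i - j), ⟨?_, ?_⟩, rfl⟩
      · have := mul_nonneg hu.1 (sub_nonneg.2 h1)
        have := Nat.cast_nonneg (α := ℝ) j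
        linarith
      · have := mul_le_mul_of_nonneg_right hu.2 (sub_nonneg.2 h1)
        linarith
  -- the path of `w`
  obtain ⟨γ, hγ⟩ := vv_joined w0 ha hb e (II * κ₀)
  have e5 : GaussianInt.toComplex (v * (II * κ₀)) = 0 + I * L := by
    rw [zero_add, hL, hl, hκ, ← toC_II, ← map_mul]
    congr 1
    ring
  have jV : JoinedIn (Set.range γ) 0 (0 + I * L) := by
    rw [← e5]
    exact ⟨γ, fun t => ⟨t, rfl⟩⟩
  have hVc : IsCompact (Set.range γ) := isCompact_range γ.continuous
  obtain ⟨r₁, hr₁⟩ := hKc.isBounded.exists_norm_le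
  obtain ⟨r₂, hr₂⟩ := hVc.isBounded.exists_norm_le
  obtain ⟨m, n, y, ⟨u, hu, rfl⟩, y', ⟨q, hq⟩, h⟩ := grid hL0 (r₀ := max r₁ r₂)
    (fun y hy => (hr₁ y hy).trans (le_max_left _ _))
    (fun y hy => (hr₂ y hy).trans (le_max_right _ _)) jK jV
  obtain ⟨z, hz, κ, hzκ⟩ := hγ q
  have h2 : z + GaussianInt.toComplex (v * κ + n * (II * l)) =
      cu w' M u + GaussianInt.toComplex (x + m * l) := by
    rw [map_add, map_add, map_mul GaussianInt.toComplex (n : GaussianInt), map_mul _ II,
      map_mul _ (m : GaussianInt), toC_II, map_intCast, map_intCast, ← hL, ← add_assoc, ← hzκ, hq,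
      ← add_assoc]
    exact h.symm
  obtain ⟨a', ha', j', hj', h3⟩ := common1 hw hw' hz hu.1 hu.2 h2
  refine ⟨a', ha', j', hj', v * κ + n * (II * l) - m * l, ?_, ?_⟩
  · have h4 : v ∣ l := ⟨κ₀, by rw [hl, hκ]⟩
    exact dvd_sub (dvd_add (dvd_mul_right _ _) ((h4.mul_left _).mul_left _)) (h4.mul_left _)
  · linear_combination h3

theorem SS_neg {w : ℕ → GaussianInt} {t : ℕ} {p : GaussianInt} (h : p ∈ SS w t) :
    -p ∈ SS w t := by
  have := SS_rot h 2
  rw [II_sq] at this
  simpa using this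

theorem phiZ_add (U a b : GaussianInt) : phiZ U (a + b) = phiZ U a + phiZ U b := by
  unfold phiZ
  rw [Zsqrtd.re_add, Zsqrtd.im_add]
  ring

theorem phiZ_sub (U a b : GaussianInt) : phiZ U (a - b) = phiZ U a - phiZ U b := by
  unfold phiZ
  rw [Zsqrtd.re_sub, Zsqrtd.im_sub]
  ring

theorem phiZ_neg (U a : GaussianInt) : phiZ U (-a) = -phiZ U a := by
  unfold phiZ
  rw [Zsqrtd.re_neg, Zsqrtd.im_neg]
  ring

/-- **The sharp theorem.** A walk rotated by quarter turns and a path reflected in its starting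
point. -/
theorem sharp8 {x : GaussianInt} (hx : x ≠ 0) {N M : ℕ} {w w' : ℕ → GaussianInt}
    (w0 : w 0 = 0) (hw : ∀ k < N, Near (pr (w k)) (pr (w (k + 1))))
    (hN : ∃ d, d ≠ 0 ∧ 2 * x ∣ d ∧ ∃ a ∈ SS w N, ∃ b ∈ SS w N, a = b + d)
    (w0' : w' 0 = 0) (hw' : ∀ k < M, Near (pr (w' k)) (pr (w' (k + 1))))
    (hM : ∃ i ≤ M, ∃ j ≤ M, w' i ≠ w' j ∧ 2 * x ∣ w' i - w' j) :
    ∃ a ∈ SS w N, ∃ j ≤ M, a = w' j + x ∨ a = w' j - x := by
  by_contra hcon
  push Not at hcon
  obtain ⟨v, hvd⟩ : ∃ v, v = 2 * x := ⟨_, rfl⟩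
  have hv : v ≠ 0 := by
    rw [hvd]
    exact mul_ne_zero two_ne_zero hx
  rw [← hvd] at hN hM
  obtain ⟨s, hs, Un, a, ha, b, hb, hab, Ha, Hb⟩ := grow2 w0 hw hv hN
  have hws : ∀ k < s + 1, Near (pr (w k)) (pr (w (k + 1))) := fun k hk => hw k (by omega)
  have hcon' : ∀ c ∈ SS w (s + 1), ∀ j ≤ M, c ≠ w' j + x ∧ c ≠ w' j - x := fun c hc j hj =>
    hcon c (SS_mono (by omega) hc) j hj
  have up : ∀ c ∈ SS w s, c ∈ SS w (s + 1) := fun c hc => SS_mono (by omega) hc
  obtain ⟨a1, ha1, j1, hj1, μ, hμ, e1⟩ : ∃ a ∈ SS w (s + 1), ∃ j ≤ M, ∃ μ, v ∣ μ ∧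
      a + μ = w' j + x := by
    obtain ⟨i, hi, j, hj, hne, hd⟩ := hM
    rcases le_total j i with h | h
    · exact congruent w0 hws hw' ha hb hab hj h hi hne hd x
    · exact congruent w0 hws hw' ha hb hab hi h hj hne.symm
        (by rw [← dvd_neg, neg_sub]; exact hd) x
  have hμ0 : μ ≠ 0 := by
    intro h
    exact (hcon' a1 ha1 j1 hj1).1 (by rw [← e1, h, add_zero])
  have hμv : μ ≠ v := by
    intro h
    exact (hcon' a1 ha1 j1 hj1).2 (by linear_combination e1 - h - hvd)
  obtain ⟨U, hU0, hU1, hU2, hU3, hU4⟩ := direction hμ hμ0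
  obtain ⟨c0, hc0, hmax, hmax1⟩ := highest s hws hU3 hU4
  let P : Set GaussianInt := {p | p + x ∈ SS w s ∨ p - x ∈ SS w s ∨ p = a - x ∨ p = x - a}
  let Q : Set GaussianInt := {q | (∃ i ≤ M, q = w' i) ∨ q - (μ - x) ∈ SS w s}
  have hPneg : ∀ p ∈ P, -p ∈ P := by
    rintro p (h | h | h | h)
    · refine Or.inr (Or.inl ?_)
      have := SS_neg h
      rwa [neg_add'] at this
    · refine Or.inl ?_
      have := SS_neg h
      rwa [neg_sub, sub_eq_neg_add] at this
    · exact Or.inr (Or.inr (Or.inr (by rw [h, neg_sub])))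
    · exact Or.inr (Or.inr (Or.inl (by rw [h, neg_sub])))
  have hbx : b + x = a - x := by rw [hab, hvd]; ring
  have jP : JoinedIn (GP P) (GaussianInt.toComplex x) (-GaussianInt.toComplex x) := by
    have j1 := arm (P := P) (τ := x) (c := b) w0 hws (fun p hp => Or.inr (Or.inl (by
      rw [add_sub_cancel_right]; exact hp))) hb (Or.inr (Or.inr (Or.inl hbx)))
    have j2 := arm (P := P) (τ := -x) (c := a) w0 hws (fun p hp => Or.inl (by
      rw [neg_add_cancel_right]; exact hp)) ha (Or.inr (Or.inr (Or.inl (by ring))))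
    rw [hbx] at j1
    rw [← sub_eq_add_neg, map_neg] at j2
    exact j1.trans j2.symm
  have hc0' : c0 ∈ SS w (s + 1) := up c0 hc0
  have hQs : ∀ p ∈ SS w s, p + (μ - x) ∈ Q := fun p hp => Or.inr (by
    rw [add_sub_cancel_right]; exact hp)
  have e2 : a1 + (μ - x) = w' j1 := by linear_combination e1
  have jQ : JoinedIn (GP Q) 0 (GaussianInt.toComplex (c0 + (μ - x))) := by
    have j1 := gp_path (P := Q) (w := w') (n := j1) (fun k hk => hw' k (by omega))
      (fun k hk => Or.inl ⟨k, by omega, rfl⟩)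
    have j2 := arm (P := Q) (τ := μ - x) (c := a1) w0 hws hQs ha1
      (Or.inl ⟨_, hj1, e2⟩)
    have j3 := arm (P := Q) (τ := μ - x) (c := c0) w0 hws hQs hc0' (hQs c0 hc0)
    rw [w0', map_zero] at j1
    rw [e2] at j2
    exact (j1.trans j2.symm).trans j3
  have disj : ∀ p ∈ P, p ∉ Q := by
    rintro p hp (⟨i, hi, rfl⟩ | hq)
    · rcases hp with h | h | h | h
      · exact (hcon' _ (up _ h) i hi).1 rfl
      · exact (hcon' _ (up _ h) i hi).2 rfl
      · exact (hcon' _ ha i hi).1 (by rw [h]; ring)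
      · exact (hcon' _ (SS_neg ha) i hi).2 (by rw [h]; ring)
    · obtain ⟨c, hc⟩ : ∃ c, c = p - (μ - x) := ⟨_, rfl⟩
      rw [← hc] at hq
      rcases hp with h | h | h | h
      · have := Un _ h _ hq (by rw [hc]; convert hμ using 1; ring)
        exact hμ0 (by linear_combination this + hc)
      · have := Un _ h _ hq (by
          have e3 : p - x - c = μ - v := by rw [hc, hvd]; ring
          rw [e3]
          exact dvd_sub hμ dvd_rfl)
        exact hμv (by linear_combination this + hc - hvd)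
      · have := Ha _ hq (by
          have e3 : a - c = μ := by rw [hc, h]; ring
          rw [e3]
          exact hμ)
        exact hμv (by linear_combination this + hc + h)
      · have := Hb _ (SS_neg hq) (by
          have e3 : b - -c = -μ := by rw [hc, h, hab, hvd]; ring
          rw [e3]
          exact (dvd_neg).2 hμ)
        exact hμ0 (by linear_combination -this + hc + h - hab - hvd)
  have dGP : ∀ f ∈ GP P, f ∉ GP Q := by
    intro f hf hf'
    obtain ⟨p, hp, hq⟩ := gp_meet hf hf'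
    exact disj p hp hq
  have hn0 : 0 ≤ v.norm := (abs_nonneg _).trans hU3
  have hvx : phiZ U v = 2 * phiZ U x := by
    rw [hvd, two_mul, phiZ_add]
    ring
  have hheight : ∀ p ∈ P, phiZ U p ≤ phiZ U (c0 + (μ - x)) := by
    intro p hp
    rw [phiZ_add, phiZ_sub]
    rcases hp with h | h | h | h
    · have := hmax _ h
      rw [phiZ_add] at this
      linarith
    · have := hmax _ h
      rw [phiZ_sub] at this
      linarith
    · have := hmax1 _ ha
      rw [h, phiZ_sub]
      linarith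
    · have := hmax1 _ (SS_neg hb)
      rw [phiZ_neg] at this
      rw [h, phiZ_sub, hab, phiZ_add]
      linarith
  have hheight' : ∀ f ∈ GP P, phi (GaussianInt.toComplex U) f ≤
      phi (GaussianInt.toComplex U) (GaussianInt.toComplex (c0 + (μ - x))) := by
    refine gp_phi fun p hp => ?_
    rw [phi_cast, phi_cast]
    exact_mod_cast hheight p hp
  have hnorm : ∀ p ∈ P, ‖GaussianInt.toComplex p‖ ≤ ((s + 1 : ℕ) : ℝ) +
      ‖GaussianInt.toComplex x‖ := by
    intro p hp
    have key : ∀ c ∈ SS w (s + 1), ‖GaussianInt.toComplex c‖ ≤ ((s + 1 : ℕ) : ℝ) := fun c hc =>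
      cu_bound w0 hws (mem_A hc)
    rcases hp with h | h | h | h
    · have e3 : p = (p + x) - x := by ring
      rw [e3, map_sub]
      exact (norm_sub_le _ _).trans (by linarith [key _ (up _ h)])
    · have e3 : p = (p - x) + x := by ring
      rw [e3, map_add]
      exact (norm_add_le _ _).trans (by linarith [key _ (up _ h)])
    · rw [h, map_sub]
      exact (norm_sub_le _ _).trans (by linarith [key _ ha])
    · rw [h, map_sub, norm_sub_rev]
      exact (norm_sub_le _ _).trans (by linarith [key _ ha])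
  refine noescape (U := GaussianInt.toComplex U) (fun h => hU0 (GaussianInt.toComplex_eq_zero.1 h))
    jP (gp_bound hnorm) jQ dGP (fun f hf => dGP _ (gp_neg hPneg f hf)) hheight'
    (fun f hf => hheight' _ (gp_neg hPneg f hf))

end Pool.Agent.H986.DS
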